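import Mathlib

set_option autoImplicit false

/-!
# The flags of the Wenger graph
-/

namespace Pool.Agent.R42.Flip

abbrev Fl (F : Type) := F × F × F × F

section
variable {F : Type} [Field F]

/-- same point -/
def rB (f g : Fl F) : Prop := f.1 = g.1 ∧ f.2.1 = g.2.1 ∧ f.2.2.1 = g.2.2.1

/-- `g` lies (up to the slope) on the line of `f` -/
def rAB (f g : Fl F) : Prop :=
  g.2.1 - f.2.1 = (g.1 - f.1) * f.2.2.2 ∧
    g.2.2.1 - f.2.2.1 = (g.1 - f.1) * (f.1 * f.2.2.2 - f.2.1)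

/-- same line -/
def rA (f g : Fl F) : Prop := f.2.2.2 = g.2.2.2 ∧ rAB f g

def near (f g : Fl F) : Prop := rA f g ∨ rB f g

def two (f g : Fl F) : Prop := ¬ near f g ∧ (rAB f g ∨ rAB g f)

theorem rB_symm {f g : Fl F} (h : rB f g) : rB g f := ⟨h.1.symm, h.2.1.symm, h.2.2.symm⟩

theorem rA_symm {f g : Fl F} (h : rA f g) : rA g f := by
  obtain ⟨h1, h2, h3⟩ := h
  refine ⟨h1.symm, ?_, ?_⟩
  · rw [← h1]; linear_combination -h2
  · rw [← h1]; linear_combination -h3 - (g.1 - f.1) * h2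

theorem near_comm (f g : Fl F) : near f g ↔ near g f := by
  constructor <;> rintro (h | h)
  · exact Or.inl (rA_symm h)
  · exact Or.inr (rB_symm h)
  · exact Or.inl (rA_symm h)
  · exact Or.inr (rB_symm h)

theorem two_comm (f g : Fl F) : two f g ↔ two g f := by
  unfold two
  rw [near_comm f g, or_comm]

theorem near_refl (f : Fl F) : near f f := Or.inr ⟨rfl, rfl, rfl⟩

/-- the ball of radius two -/
def Bl (f : Fl F) : Set (Fl F) := {g | near f g ∨ two f g}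

/-- an automorphism which maps `v` to `0` -/
def toZ (v : Fl F) : Fl F ≃ Fl F where
  toFun f := (f.1 - v.1, f.2.1 - v.2.1 - v.2.2.2 * (f.1 - v.1),
    f.2.2.1 - v.2.2.1 - v.1 * (f.2.1 - v.2.1) + v.2.1 * (f.1 - v.1), f.2.2.2 - v.2.2.2)
  invFun g := (g.1 + v.1, g.2.1 + v.2.1 + v.2.2.2 * g.1,
    g.2.2.1 + v.2.2.1 + v.1 * (g.2.1 + v.2.2.2 * g.1) - v.2.1 * g.1, g.2.2.2 + v.2.2.2)
  left_inv f := by
    ext <;> simp <;> ring
  right_inv g := by
    ext <;> simp <;> ring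

theorem toZ_self (v : Fl F) : toZ v v = (0, 0, 0, 0) := by
  simp [toZ]

theorem toZ_rB (v f g : Fl F) : rB (toZ v f) (toZ v g) ↔ rB f g := by
  constructor
  · rintro ⟨h1, h2, h3⟩
    simp only [toZ, Equiv.coe_fn_mk] at h1 h2 h3
    have h1' : f.1 = g.1 := by linear_combination h1
    refine ⟨h1', ?_, ?_⟩
    · linear_combination h2 + v.2.2.2 * h1
    · linear_combination h3 + v.1 * (h2 + v.2.2.2 * h1) - v.2.1 * h1
  · rintro ⟨h1, h2, h3⟩
    simp only [toZ, Equiv.coe_fn_mk]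
    refine ⟨by rw [h1], by rw [h1, h2], by rw [h1, h2, h3]⟩

theorem toZ_rAB (v f g : Fl F) : rAB (toZ v f) (toZ v g) ↔ rAB f g := by
  constructor
  · rintro ⟨h1, h2⟩
    simp only [toZ, Equiv.coe_fn_mk] at h1 h2
    have h1' : g.2.1 - f.2.1 = (g.1 - f.1) * f.2.2.2 := by linear_combination h1
    refine ⟨h1', ?_⟩
    linear_combination h2 + v.1 * h1'
  · rintro ⟨h1, h2⟩
    simp only [toZ, Equiv.coe_fn_mk]
    refine ⟨?_, ?_⟩
    · show _ = _
      linear_combination h1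
    · show _ = _
      linear_combination h2 - v.1 * h1

theorem toZ_near (v f g : Fl F) : near (toZ v f) (toZ v g) ↔ near f g := by
  unfold near rA
  rw [toZ_rB, toZ_rAB]
  have : (toZ v f).2.2.2 = (toZ v g).2.2.2 ↔ f.2.2.2 = g.2.2.2 := by
    simp [toZ]
  rw [this]

theorem toZ_two (v f g : Fl F) : two (toZ v f) (toZ v g) ↔ two f g := by
  unfold two
  rw [toZ_near, toZ_rAB, toZ_rAB]

theorem toZ_Bl (v g : Fl F) : toZ v g ∈ Bl ((0, 0, 0, 0) : Fl F) ↔ g ∈ Bl v := by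
  show near _ _ ∨ two _ _ ↔ near _ _ ∨ two _ _
  rw [← toZ_self v, toZ_near, toZ_two]

theorem near0 (g : Fl F) : near ((0, 0, 0, 0) : Fl F) g ↔
    (g.2.2.2 = 0 ∧ g.2.1 = 0 ∧ g.2.2.1 = 0) ∨ (g.1 = 0 ∧ g.2.1 = 0 ∧ g.2.2.1 = 0) := by
  unfold near rA rAB rB
  simp
  tauto

end

end Pool.Agent.R42.Flip
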