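import Mathlib
import Pool.Agent.R42.Flip.Base

set_option autoImplicit false

/-!
# Counting in the ball of radius two
-/

namespace Pool.Agent.R42.Flip

theorem card4 {A B C D : Type} [Fintype A] [Fintype B] [Fintype C] [Fintype D]
    (P : A → B → C → D → Prop) [∀ a b c d, Decidable (P a b c d)] :
    (Nat.card {j : (A × B) × (C × D) // P j.1.1 j.1.2 j.2.1 j.2.2} : ℤ) =
      ∑ a, ∑ b, ∑ c, ∑ d, if P a b c d then 1 else 0 := by
  rw [Nat.card_eq_fintype_card, Fintype.card_subtype, Finset.card_filter]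
  push_cast
  rw [Fintype.sum_prod_type, Fintype.sum_prod_type]
  refine Finset.sum_congr rfl fun a _ => Finset.sum_congr rfl fun b _ => ?_
  rw [Fintype.sum_prod_type]

open Classical in
theorem card_split {A B : Type} [Fintype A] [Fintype B] (P : A ⊕ B → A ⊕ B → Prop) :
    Nat.card {j : (A ⊕ B) × (A ⊕ B) // P j.1 j.2} =
      Nat.card {j : A × A // P (Sum.inl j.1) (Sum.inl j.2)} +
      Nat.card {j : A × B // P (Sum.inl j.1) (Sum.inr j.2)} +
      (Nat.card {j : B × A // P (Sum.inr j.1) (Sum.inl j.2)} +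
      Nat.card {j : B × B // P (Sum.inr j.1) (Sum.inr j.2)}) := by
  simp only [Nat.card_eq_fintype_card, Fintype.card_subtype, Finset.card_filter,
    Fintype.sum_prod_type, Fintype.sum_sum_type, Finset.sum_add_distrib]
  omega

section
open Classical
variable {F : Type} [Field F] [Fintype F]

abbrev NZ (F : Type) [Field F] := {x : F // x ≠ 0}

theorem card_NZ {p : ℕ} (hp : Fintype.card F = p + 1) : Fintype.card (NZ F) = p := by
  have : Fintype.card (NZ F) = Fintype.card F - 1 := by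
    rw [← Fintype.card_units]
    exact Fintype.card_congr unitsEquivNeZero.symm
  omega

theorem q1 {p : ℕ} (hp : Fintype.card F = p + 1) :
    (Nat.card {j : (F × F) × (F × F) // j.1.1 = j.2.1 ∨ (j.1.2 = 0 ∧ j.2.2 = 0)} : ℤ) =
      (p + 1) ^ 3 + (p + 1) ^ 2 - (p + 1) := by
  rw [card4 (fun s r s' r' => s = s' ∨ (r = 0 ∧ r' = 0))]
  have h : ∀ s r s' r' : F, (if (s = s' ∨ (r = 0 ∧ r' = 0)) then (1 : ℤ) else 0) =
      (if s = s' then 1 else 0) + (if r = 0 then 1 else 0) * (if r' = 0 then 1 else 0) -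
      (if s = s' then 1 else 0) * ((if r = 0 then 1 else 0) * (if r' = 0 then 1 else 0)) := by
    intro s r s' r'
    by_cases h1 : s = s' <;> by_cases h2 : r = 0 <;> by_cases h3 : r' = 0 <;> simp [h1, h2, h3]
  simp only [h]
  simp [Finset.sum_add_distrib, Finset.sum_sub_distrib, ← Finset.mul_sum, ← Finset.sum_mul, hp]
  ring

theorem q2 {p : ℕ} (hp : Fintype.card F = p + 1) :
    (Nat.card {j : (F × F) × (F × F) // j.1.1 ≠ j.2.1 ∧ ((j.1.2 = 0 ∨ j.2.2 = 0) ∧
      ¬ (j.1.2 = 0 ∧ j.2.2 = 0))} : ℤ) = 2 * (p + 1) * p ^ 2 := by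
  rw [card4 (fun s r s' r' => s ≠ s' ∧ ((r = 0 ∨ r' = 0) ∧ ¬ (r = 0 ∧ r' = 0)))]
  have h : ∀ s r s' r' : F, (if (s ≠ s' ∧ ((r = 0 ∨ r' = 0) ∧ ¬ (r = 0 ∧ r' = 0)))
      then (1 : ℤ) else 0) =
      (1 - (if s = s' then 1 else 0)) * ((if r = 0 then 1 else 0) + (if r' = 0 then 1 else 0)
        - 2 * ((if r = 0 then 1 else 0) * (if r' = 0 then 1 else 0))) := by
    intro s r s' r'
    by_cases h1 : s = s' <;> by_cases h2 : r = 0 <;> by_cases h3 : r' = 0 <;> simp [h1, h2, h3]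
  simp only [h]
  simp [Finset.sum_add_distrib, Finset.sum_sub_distrib, ← Finset.mul_sum, ← Finset.sum_mul, hp]
  ring

theorem q3 {p : ℕ} (hp : Fintype.card F = p + 1) :
    (Nat.card {j : (F × F) × (NZ F × NZ F) // j.1.1 = 0 ∧ j.1.2 = j.2.2} : ℤ) = p ^ 2 := by
  rw [card4 (fun (s r : F) (_ : NZ F) (r' : NZ F) => s = 0 ∧ r = (r' : F))]
  have h : ∀ (s r : F) (r' : NZ F), (if (s = 0 ∧ r = r') then (1 : ℤ) else 0) =
      (if s = 0 then 1 else 0) * (if r = r' then 1 else 0) := by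
    intro s r r'
    by_cases h1 : s = 0 <;> by_cases h2 : r = r' <;> simp [h1, h2]
  simp only [h]
  have h2 : ∀ s : F, ∑ r : F, ∑ _s' : NZ F, ∑ r' : NZ F,
      (if s = 0 then (1 : ℤ) else 0) * (if r = r' then 1 else 0) =
      (if s = 0 then (1 : ℤ) else 0) * p ^ 2 := by
    intro s
    simp only [← Finset.mul_sum]
    rw [Finset.sum_comm]
    have : ∑ _s' : NZ F, ∑ r : F, ∑ r' : NZ F, (if r = (r' : F) then (1 : ℤ) else 0) = p ^ 2 := by
      have h3 : ∑ r : F, ∑ r' : NZ F, (if r = (r' : F) then (1 : ℤ) else 0) = p := by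
        rw [Finset.sum_comm]
        simp [card_NZ hp]
      simp only [h3]
      simp [card_NZ hp]
      ring
    rw [this]
  simp only [h2]
  simp

theorem q4 {p : ℕ} (hp : Fintype.card F = p + 1) :
    (Nat.card {j : (F × F) × (NZ F × NZ F) // j.1.1 = 0 ∧ j.1.2 ≠ j.2.2} : ℤ) = p ^ 3 := by
  rw [card4 (fun (s r : F) (_ : NZ F) (r' : NZ F) => s = 0 ∧ r ≠ (r' : F))]
  have h : ∀ (s r : F) (r' : NZ F), (if (s = 0 ∧ r ≠ r') then (1 : ℤ) else 0) =
      (if s = 0 then 1 else 0) * (1 - (if r = r' then 1 else 0)) := by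
    intro s r r'
    by_cases h1 : s = 0 <;> by_cases h2 : r = r' <;> simp [h1, h2]
  simp only [h]
  have h2 : ∀ s : F, ∑ r : F, ∑ _s' : NZ F, ∑ r' : NZ F,
      (if s = 0 then (1 : ℤ) else 0) * (1 - (if r = r' then 1 else 0)) =
      (if s = 0 then (1 : ℤ) else 0) * p ^ 3 := by
    intro s
    simp only [← Finset.mul_sum]
    rw [Finset.sum_comm]
    have : ∑ _s' : NZ F, ∑ r : F, ∑ r' : NZ F, (1 - (if r = (r' : F) then (1 : ℤ) else 0))
        = p ^ 3 := by
      have h3 : ∑ r : F, ∑ r' : NZ F, (1 - (if r = (r' : F) then (1 : ℤ) else 0)) = p ^ 2 := by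
        rw [Finset.sum_comm]
        simp [card_NZ hp, hp]
        ring
      simp only [h3]
      simp [card_NZ hp]
      ring
    rw [this]
  simp only [h2]
  simp

theorem q5 {p : ℕ} (hp : Fintype.card F = p + 1) :
    (Nat.card {j : (NZ F × NZ F) × (NZ F × NZ F) // j.1.2 = j.2.2} : ℤ) = p ^ 3 := by
  rw [card4 (fun (_ : NZ F) (r : NZ F) (_ : NZ F) (r' : NZ F) => r = r')]
  have h3 : ∑ r : NZ F, ∑ _s' : NZ F, ∑ r' : NZ F, (if r = r' then (1 : ℤ) else 0) = p ^ 2 := by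
    have h4 : ∀ r : NZ F, ∑ _s' : NZ F, ∑ r' : NZ F, (if r = r' then (1 : ℤ) else 0) = p := by
      intro r
      have h5 : ∑ r' : NZ F, (if r = r' then (1 : ℤ) else 0) = 1 := by simp
      simp only [h5]
      simp [card_NZ hp]
    simp only [h4]
    simp [card_NZ hp]
    ring
  simp only [h3]
  simp [card_NZ hp]
  ring

end

end Pool.Agent.R42.Flip
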