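import Mathlib
import Pool.Agent.R42.Flip.Count

set_option autoImplicit false

/-!
# The numbers attached to the ball of radius two
-/

namespace Pool.Agent.R42.Flip

theorem card_pair {I X : Type} (io : I → X) (hi : Function.Injective io) (S : Set X)
    (hS : ∀ x, x ∈ S ↔ ∃ j, io j = x) (R : X → X → Prop) :
    Nat.card {x : X × X // x.1 ∈ S ∧ x.2 ∈ S ∧ R x.1 x.2} =
      Nat.card {j : I × I // R (io j.1) (io j.2)} := by
  symm
  refine Nat.card_congr (Equiv.ofBijective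
    (fun j => ⟨(io j.1.1, io j.1.2), (hS _).2 ⟨_, rfl⟩, (hS _).2 ⟨_, rfl⟩, j.2⟩) ⟨?_, ?_⟩)
  · rintro ⟨⟨a, b⟩, h⟩ ⟨⟨a', b'⟩, h'⟩ he
    simp only [Subtype.mk.injEq, Prod.mk.injEq] at he
    rw [Subtype.mk.injEq, Prod.mk.injEq]
    exact ⟨hi he.1, hi he.2⟩
  · rintro ⟨⟨x, y⟩, hx, hy, hR⟩
    obtain ⟨a, rfl⟩ := (hS _).1 hx
    obtain ⟨b, rfl⟩ := (hS _).1 hy
    exact ⟨⟨(a, b), hR⟩, rfl⟩

theorem card_one {I X : Type} (io : I → X) (hi : Function.Injective io) (S : Set X)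
    (hS : ∀ x, x ∈ S ↔ ∃ j, io j = x) (R : X → Prop) :
    Nat.card {x : X // x ∈ S ∧ R x} = Nat.card {j : I // R (io j)} := by
  symm
  refine Nat.card_congr (Equiv.ofBijective (fun j => ⟨io j.1, (hS _).2 ⟨_, rfl⟩, j.2⟩) ⟨?_, ?_⟩)
  · rintro ⟨a, h⟩ ⟨a', h'⟩ he
    simp only [Subtype.mk.injEq] at he
    rw [Subtype.mk.injEq]
    exact hi he
  · rintro ⟨x, hx, hR⟩
    obtain ⟨a, rfl⟩ := (hS _).1 hx
    exact ⟨⟨a, hR⟩, rfl⟩

section
variable {F : Type} [Field F]

abbrev Ix (F : Type) [Field F] := (F × F) ⊕ (NZ F × NZ F)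

def io : Ix F → Fl F
  | Sum.inl j => (j.1, 0, 0, j.2)
  | Sum.inr j => (j.1, j.1 * j.2, 0, j.2)

theorem io_inj : Function.Injective (io (F := F)) := by
  rintro (⟨s, r⟩ | ⟨⟨s, hs⟩, ⟨r, hr⟩⟩) (⟨s', r'⟩ | ⟨⟨s', hs'⟩, ⟨r', hr'⟩⟩) h
  · simp only [io, Prod.mk.injEq] at h
    rw [h.1, h.2.2.2]
  · simp only [io, Prod.mk.injEq] at h
    exact absurd h.2.1.symm (mul_ne_zero hs' hr')
  · simp only [io, Prod.mk.injEq] at h
    exact absurd h.2.1 (mul_ne_zero hs hr)
  · simp only [io, Prod.mk.injEq] at h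
    obtain ⟨h1, -, -, h2⟩ := h
    subst h1; subst h2
    rfl

theorem near_ll (s r s' r' : F) : near (io (Sum.inl (s, r))) (io (Sum.inl (s', r'))) ↔
    s = s' ∨ (r = 0 ∧ r' = 0) := by
  simp only [near, rA, rB, rAB, io]
  constructor
  · rintro (⟨h1, h2, h3⟩ | ⟨h1, -, -⟩)
    · have h2' : (s' - s) * r = 0 := by linear_combination -h2
      rcases mul_eq_zero.1 h2' with h | h
      · exact Or.inl (sub_eq_zero.1 h).symm
      · exact Or.inr ⟨h, h1 ▸ h⟩
    · exact Or.inl h1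
  · rintro (h | ⟨h1, h2⟩)
    · exact Or.inr ⟨h, trivial, trivial⟩
    · subst h1; subst h2
      exact Or.inl ⟨rfl, by ring, by ring⟩

theorem near_lr (s r : F) (s' r' : NZ F) : near (io (Sum.inl (s, r))) (io (Sum.inr (s', r'))) ↔
    s = 0 ∧ r = r' := by
  obtain ⟨s', hs'⟩ := s'
  obtain ⟨r', hr'⟩ := r'
  simp only [near, rA, rB, rAB, io]
  constructor
  · rintro (⟨h1, h2, h3⟩ | ⟨h1, h2, -⟩)
    · refine ⟨?_, h1⟩
      have : s * r' = 0 := by
        rw [h1] at h2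
        linear_combination h2
      rcases mul_eq_zero.1 this with h | h
      · exact h
      · exact absurd h hr'
    · exact absurd h2.symm (mul_ne_zero hs' hr')
  · rintro ⟨h1, h2⟩
    subst h1; subst h2
    exact Or.inl ⟨rfl, by ring, by ring⟩

theorem near_rr (s r s' r' : NZ F) : near (io (Sum.inr (s, r))) (io (Sum.inr (s', r'))) ↔
    r = r' := by
  obtain ⟨s', hs'⟩ := s'
  obtain ⟨r', hr'⟩ := r'
  obtain ⟨s, hs⟩ := s
  obtain ⟨r, hr⟩ := r
  simp only [near, rA, rB, rAB, io, Subtype.mk.injEq]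
  constructor
  · rintro (⟨h1, h2, h3⟩ | ⟨h1, h2, -⟩)
    · exact h1
    · subst h1
      exact mul_left_cancel₀ hs h2
  · intro h2
    subst h2
    exact Or.inl ⟨rfl, by ring, by ring⟩

theorem two_ll (s r s' r' : F) : two (io (Sum.inl (s, r))) (io (Sum.inl (s', r'))) ↔
    s ≠ s' ∧ ((r = 0 ∨ r' = 0) ∧ ¬ (r = 0 ∧ r' = 0)) := by
  unfold two
  rw [near_ll]
  simp only [rAB, io]
  constructor
  · rintro ⟨h1, h2⟩
    push Not at h1
    have hss : s' - s ≠ 0 := fun h => h1.1 (sub_eq_zero.1 h).symm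
    refine ⟨h1.1, ?_, fun h => h1.2 h.1 h.2⟩
    rcases h2 with ⟨h2, h3⟩ | ⟨h2, h3⟩
    · left
      have : (s' - s) * r = 0 := by linear_combination -h2
      exact (mul_eq_zero.1 this).resolve_left hss
    · right
      have : (s' - s) * r' = 0 := by linear_combination h2
      exact (mul_eq_zero.1 this).resolve_left hss
  · rintro ⟨h1, h2, h3⟩
    refine ⟨?_, ?_⟩
    · rintro (h | h)
      · exact h1 h
      · exact h3 h
    · rcases h2 with h | h
      · left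
        subst h
        exact ⟨by ring, by ring⟩
      · right
        subst h
        exact ⟨by ring, by ring⟩

theorem two_lr (s r : F) (s' r' : NZ F) : two (io (Sum.inl (s, r))) (io (Sum.inr (s', r'))) ↔
    s = 0 ∧ r ≠ r' := by
  unfold two
  rw [near_lr]
  obtain ⟨s', hs'⟩ := s'
  obtain ⟨r', hr'⟩ := r'
  simp only [rAB, io]
  constructor
  · rintro ⟨h1, h2⟩
    have hs0 : s = 0 := by
      rcases h2 with ⟨h2, h3⟩ | ⟨h2, h3⟩
      · have h4 : (s' - s) * r ≠ 0 := by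
          rw [← h2, sub_zero]
          exact mul_ne_zero hs' hr'
        have h5 : (s' - s) * r * s = 0 := by linear_combination -h3
        exact (mul_eq_zero.1 h5).resolve_left h4
      · have h5 : s * r' = 0 := by linear_combination -h2
        exact (mul_eq_zero.1 h5).resolve_right hr'
    exact ⟨hs0, fun h => h1 ⟨hs0, h⟩⟩
  · rintro ⟨h1, h2⟩
    subst h1
    refine ⟨fun h => h2 h.2, Or.inr ⟨by ring, by ring⟩⟩

theorem two_rr (s r s' r' : NZ F) : ¬ two (io (Sum.inr (s, r))) (io (Sum.inr (s', r'))) := by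
  unfold two
  rw [near_rr]
  obtain ⟨s', hs'⟩ := s'
  obtain ⟨r', hr'⟩ := r'
  obtain ⟨s, hs⟩ := s
  obtain ⟨r, hr⟩ := r
  simp only [rAB, io, Subtype.mk.injEq]
  rintro ⟨h1, ⟨h2, -⟩ | ⟨h2, -⟩⟩
  · apply h1
    have : s' * (r' - r) = 0 := by linear_combination h2
    exact (sub_eq_zero.1 ((mul_eq_zero.1 this).resolve_left hs')).symm
  · apply h1
    have : s * (r - r') = 0 := by linear_combination h2
    exact sub_eq_zero.1 ((mul_eq_zero.1 this).resolve_left hs)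

theorem mem_Bl0 (g : Fl F) : g ∈ Bl ((0, 0, 0, 0) : Fl F) ↔ ∃ j, io j = g := by
  have h0 : ((0, 0, 0, 0) : Fl F) = io (Sum.inl (0, 0)) := rfl
  constructor
  · obtain ⟨a, b, c, x⟩ := g
    intro h
    have hc : c = 0 ∧ (b = 0 ∨ b = a * x) := by
      rcases h with h | h
      · rw [near0] at h
        simp only at h
        rcases h with h | h
        · exact ⟨h.2.2, Or.inl h.2.1⟩
        · exact ⟨h.2.2, Or.inl h.2.1⟩
      · obtain ⟨-, ⟨h1, h2⟩ | ⟨h1, h2⟩⟩ := h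
        · simp only at h1 h2
          refine ⟨by linear_combination h2, Or.inl (by linear_combination h1)⟩
        · simp only at h1 h2
          have hb : b = a * x := by linear_combination -h1
          refine ⟨?_, Or.inr hb⟩
          linear_combination -h2 - a * hb
    obtain ⟨hc, hb⟩ := hc
    subst hc
    by_cases hb0 : b = 0
    · subst hb0
      exact ⟨Sum.inl (a, x), rfl⟩
    · have hb' := hb.resolve_left hb0
      subst hb'
      have ha : a ≠ 0 := fun h => hb0 (by rw [h, zero_mul])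
      have hx : x ≠ 0 := fun h => hb0 (by rw [h, mul_zero])
      exact ⟨Sum.inr (⟨a, ha⟩, ⟨x, hx⟩), rfl⟩
  · rintro ⟨(⟨s, r⟩ | ⟨s, r⟩), rfl⟩
    · show near _ _ ∨ two _ _
      rw [h0, near_ll, two_ll]
      tauto
    · show near _ _ ∨ two _ _
      rw [h0, near_lr, two_lr]
      right
      exact ⟨rfl, fun h => r.2 h.symm⟩

end

section
open Classical
variable {F : Type} [Field F] [Fintype F]

theorem cNr {p : ℕ} (hp : Fintype.card F = p + 1) (v : Fl F) :
    Nat.card {x : Fl F × Fl F // x.1 ∈ Bl v ∧ x.2 ∈ Bl v ∧ near x.1 x.2} =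
      2 * p ^ 3 + 6 * p ^ 2 + 4 * p + 1 := by
  have h0 : Nat.card {x : Fl F × Fl F // x.1 ∈ Bl v ∧ x.2 ∈ Bl v ∧ near x.1 x.2} =
      Nat.card {x : Fl F × Fl F // x.1 ∈ Bl ((0, 0, 0, 0) : Fl F) ∧
        x.2 ∈ Bl ((0, 0, 0, 0) : Fl F) ∧ near x.1 x.2} := by
    refine Nat.card_congr (((toZ v).prodCongr (toZ v)).subtypeEquiv ?_)
    rintro ⟨x, y⟩
    simp only [Equiv.prodCongr_apply, Prod.map_apply, toZ_Bl, toZ_near]
  rw [h0, card_pair io io_inj _ mem_Bl0, card_split (fun a b => near (io a) (io b))]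
  have e1 : (Nat.card {j : (F × F) × (F × F) // near (io (Sum.inl j.1)) (io (Sum.inl j.2))} : ℤ)
      = (p + 1) ^ 3 + (p + 1) ^ 2 - (p + 1) := by
    rw [← q1 hp]
    congr 1
    exact Nat.card_congr (Equiv.subtypeEquivRight fun j => near_ll _ _ _ _)
  have e2 : (Nat.card {j : (F × F) × (NZ F × NZ F) //
      near (io (Sum.inl j.1)) (io (Sum.inr j.2))} : ℤ) = p ^ 2 := by
    rw [← q3 hp]
    congr 1
    exact Nat.card_congr (Equiv.subtypeEquivRight fun j => near_lr _ _ _ _)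
  have e3 : (Nat.card {j : (NZ F × NZ F) × (F × F) //
      near (io (Sum.inr j.1)) (io (Sum.inl j.2))} : ℤ) = p ^ 2 := by
    rw [← e2]
    congr 1
    refine Nat.card_congr ((Equiv.prodComm _ _).subtypeEquiv ?_)
    rintro ⟨x, y⟩
    exact near_comm _ _
  have e4 : (Nat.card {j : (NZ F × NZ F) × (NZ F × NZ F) //
      near (io (Sum.inr j.1)) (io (Sum.inr j.2))} : ℤ) = p ^ 3 := by
    rw [← q5 hp]
    congr 1
    exact Nat.card_congr (Equiv.subtypeEquivRight fun j => near_rr _ _ _ _)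
  zify
  rw [e1, e2, e3, e4]
  ring

theorem cNb {p : ℕ} (hp : Fintype.card F = p + 1) (v : Fl F) :
    Nat.card {x : Fl F × Fl F // x.1 ∈ Bl v ∧ x.2 ∈ Bl v ∧ two x.1 x.2} =
      4 * p ^ 3 + 2 * p ^ 2 := by
  have h0 : Nat.card {x : Fl F × Fl F // x.1 ∈ Bl v ∧ x.2 ∈ Bl v ∧ two x.1 x.2} =
      Nat.card {x : Fl F × Fl F // x.1 ∈ Bl ((0, 0, 0, 0) : Fl F) ∧
        x.2 ∈ Bl ((0, 0, 0, 0) : Fl F) ∧ two x.1 x.2} := by
    refine Nat.card_congr (((toZ v).prodCongr (toZ v)).subtypeEquiv ?_)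
    rintro ⟨x, y⟩
    simp only [Equiv.prodCongr_apply, Prod.map_apply, toZ_Bl, toZ_two]
  rw [h0, card_pair io io_inj _ mem_Bl0, card_split (fun a b => two (io a) (io b))]
  have e1 : (Nat.card {j : (F × F) × (F × F) // two (io (Sum.inl j.1)) (io (Sum.inl j.2))} : ℤ)
      = 2 * (p + 1) * p ^ 2 := by
    rw [← q2 hp]
    congr 1
    exact Nat.card_congr (Equiv.subtypeEquivRight fun j => two_ll _ _ _ _)
  have e2 : (Nat.card {j : (F × F) × (NZ F × NZ F) //
      two (io (Sum.inl j.1)) (io (Sum.inr j.2))} : ℤ) = p ^ 3 := by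
    rw [← q4 hp]
    congr 1
    exact Nat.card_congr (Equiv.subtypeEquivRight fun j => two_lr _ _ _ _)
  have e3 : (Nat.card {j : (NZ F × NZ F) × (F × F) //
      two (io (Sum.inr j.1)) (io (Sum.inl j.2))} : ℤ) = p ^ 3 := by
    rw [← e2]
    congr 1
    refine Nat.card_congr ((Equiv.prodComm _ _).subtypeEquiv ?_)
    rintro ⟨x, y⟩
    exact two_comm _ _
  have e4 : (Nat.card {j : (NZ F × NZ F) × (NZ F × NZ F) //
      two (io (Sum.inr j.1)) (io (Sum.inr j.2))} : ℤ) = 0 := by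
    have : IsEmpty {j : (NZ F × NZ F) × (NZ F × NZ F) //
      two (io (Sum.inr j.1)) (io (Sum.inr j.2))} := ⟨fun j => two_rr _ _ _ _ j.2⟩
    simp
  zify
  rw [e1, e2, e3, e4]
  ring

theorem cB {p : ℕ} (hp : Fintype.card F = p + 1) (v : Fl F) :
    Nat.card {x : Fl F // x ∈ Bl v} = 2 * p ^ 2 + 2 * p + 1 := by
  have h0 : Nat.card {x : Fl F // x ∈ Bl v} =
      Nat.card {x : Fl F // x ∈ Bl ((0, 0, 0, 0) : Fl F)} := by
    refine Nat.card_congr ((toZ v).subtypeEquiv ?_)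
    intro x
    exact (toZ_Bl v x).symm
  have h1 : Nat.card {x : Fl F // x ∈ Bl ((0, 0, 0, 0) : Fl F)} = Nat.card (Ix F) := by
    symm
    refine Nat.card_congr (Equiv.ofBijective (fun j => ⟨io j, (mem_Bl0 _).2 ⟨_, rfl⟩⟩) ⟨?_, ?_⟩)
    · intro a b h
      rw [Subtype.mk.injEq] at h
      exact io_inj h
    · rintro ⟨x, hx⟩
      obtain ⟨j, rfl⟩ := (mem_Bl0 _).1 hx
      exact ⟨j, rfl⟩
  rw [h0, h1, Nat.card_eq_fintype_card]
  simp only [Ix, Fintype.card_sum, Fintype.card_prod, card_NZ hp, hp]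
  ring

theorem cn2 {p : ℕ} (hp : Fintype.card F = p + 1) (v : Fl F) :
    Nat.card {x : Fl F // two v x} = 2 * p ^ 2 := by
  have h0 : Nat.card {x : Fl F // two v x} = Nat.card {x : Fl F // x ∈ Bl ((0, 0, 0, 0) : Fl F) ∧
      two ((0, 0, 0, 0) : Fl F) x} := by
    refine Nat.card_congr ((toZ v).subtypeEquiv ?_)
    intro x
    rw [← toZ_self v, toZ_two]
    constructor
    · intro h
      refine ⟨?_, h⟩
      rw [toZ_self, toZ_Bl]
      exact Or.inr h
    · exact fun h => h.2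
  rw [h0, card_one io io_inj _ mem_Bl0]
  rw [Nat.card_congr Equiv.subtypeSum, Nat.card_sum]
  have e1 : Nat.card {j : F × F // two ((0, 0, 0, 0) : Fl F) (io (Sum.inl j))} = p * p := by
    rw [← card_NZ hp, ← Fintype.card_prod, ← Nat.card_eq_fintype_card]
    refine Nat.card_congr
      { toFun := fun j => (⟨j.1.1, ?_⟩, ⟨j.1.2, ?_⟩)
        invFun := fun j => ⟨(j.1, j.2), ?_⟩
        left_inv := ?_
        right_inv := ?_ }
    · have := (two_ll 0 0 j.1.1 j.1.2).1 j.2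
      exact fun h => this.1 h.symm
    · have := (two_ll 0 0 j.1.1 j.1.2).1 j.2
      exact fun h => this.2.2 ⟨rfl, h⟩
    · refine (two_ll 0 0 _ _).2 ⟨fun h => j.1.2 h.symm, Or.inl rfl, fun h => j.2.2 h.2⟩
    · intro j; rfl
    · intro j; rfl
  have e2 : Nat.card {j : NZ F × NZ F // two ((0, 0, 0, 0) : Fl F) (io (Sum.inr j))} = p * p := by
    rw [← card_NZ hp, ← Fintype.card_prod, ← Nat.card_eq_fintype_card]
    refine Nat.card_congr (Equiv.subtypeUnivEquiv ?_)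
    intro j
    exact (two_lr 0 0 _ _).2 ⟨rfl, fun h => j.2.2 h.symm⟩
  rw [e1, e2]
  ring

theorem cn1 {p : ℕ} (hp : Fintype.card F = p + 1) (v : Fl F) :
    Nat.card {x : Fl F // near v x} = 2 * p + 1 := by
  have h1 : Nat.card {x : Fl F // x ∈ Bl v} =
      Nat.card {x : Fl F // near v x} + Nat.card {x : Fl F // two v x} := by
    simp only [Nat.card_eq_fintype_card, Fintype.card_subtype, Bl, Set.mem_ofPred_eq]
    rw [Finset.filter_or, Finset.card_union_of_disjoint]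
    rw [Finset.disjoint_filter]
    intro x _ h h'
    exact h'.1 h
  rw [cB hp, cn2 hp] at h1
  omega

end

end Pool.Agent.R42.Flip
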