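import Mathlib

set_option autoImplicit false

/-!
# Definitions for 3-flip sequences (MP_56a9b7_co)
-/

namespace Pool.Agent.R42.Flip

/-- `c : V → V → ℕ` is a colouring of the pairs: `0` means no edge, `1, 2, 3` are the colours.
`D c j v` is the number of vertices joined to `v` by colour `j`. -/
noncomputable def D {V : Type} (c : V → V → ℕ) (j : ℕ) (v : V) : ℕ :=
  Nat.card {w : V // c v w = j}

/-- the closed neighbourhood -/
def Nb {V : Type} (c : V → V → ℕ) (v : V) : Set V := {x | x = v ∨ c v x ≠ 0}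

/-- number of ordered pairs of colour `j` inside the closed neighbourhood of `v` -/
noncomputable def E {V : Type} (c : V → V → ℕ) (j : ℕ) (v : V) : ℕ :=
  Nat.card {x : V × V // x.1 ∈ Nb c v ∧ x.2 ∈ Nb c v ∧ c x.1 x.2 = j}

/-- (P1) the upper bound -/
def StUpper : Prop :=
  ∀ (V : Type) [Fintype V] [Nonempty V] (c : V → V → ℕ), (∀ x y, c x y = c y x) →
    (∀ x, c x x = 0) → (∀ x y, c x y ≤ 3) → ∀ a1 a2 a3 : ℕ,
    (∀ v, D c 1 v = a1) → (∀ v, D c 2 v = a2) → (∀ v, D c 3 v = a3) → 0 < a1 → a1 < a2 →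
    (∀ v, E c 3 v < E c 2 v ∧ E c 2 v < E c 1 v) → 4 * a3 < 5 * a1 ^ 2

/-- the conditions which make `(a1, a2, a3)` a flip sequence in our construction with parameters
`p, t, s, X` -/
def Good (p t s X : ℕ) : Prop :=
  s ≤ t ∧ 0 < X ∧
  t * (2 * p + 1) - 1 < 2 * p ^ 2 * s ∧
  2 * p ^ 2 * s < 2 * p ^ 2 * (t - s) + X ∧
  (4 * p ^ 3 + 2 * p ^ 2) * t * (t - s) + 2 * X < (4 * p ^ 3 + 2 * p ^ 2) * t * s ∧
  (4 * p ^ 3 + 2 * p ^ 2) * t * s + t * (2 * p ^ 2 + 2 * p + 1) <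
    t ^ 2 * (2 * p ^ 3 + 6 * p ^ 2 + 4 * p + 1)

/-- (P3) the numbers: for every `c < 5/4` there are a prime `q = p + 1` and infinitely many `t`
with good parameters such that `a3 ≥ c a1^2` -/
def StParams : Prop :=
  ∀ c : ℝ, c < 5 / 4 → ∃ p : ℕ, (p + 1).Prime ∧ ∀ N : ℕ, ∃ t s X : ℕ, N ≤ t ∧ Good p t s X ∧
    c * ((t * (2 * p + 1) - 1 : ℕ) : ℝ) ^ 2 ≤ ((2 * p ^ 2 * (t - s) + X : ℕ) : ℝ)

end Pool.Agent.R42.Flip
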