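import Mathlib
import Pool.Agent.R42.Flip.Defs

set_option autoImplicit false

/-!
# Blow-up and Cartesian product with `K_{X,X}`
-/

namespace Pool.Agent.R42.Flip

open Classical

section
variable {t : ℕ} [NeZero t]

theorem cT {s : ℕ} (hs : s ≤ t) (i : ZMod t) : Nat.card {j : ZMod t // (i + j).val < s} = s := by
  have e1 : Nat.card {j : ZMod t // (i + j).val < s} = Nat.card {j : ZMod t // j.val < s} := by
    refine Nat.card_congr ((Equiv.addLeft i).subtypeEquiv ?_)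
    intro j
    rfl
  rw [e1]
  conv_rhs => rw [← Nat.card_fin s]
  refine Nat.card_congr
    { toFun := fun j => ⟨j.1.val, j.2⟩
      invFun := fun k => ⟨((k : ℕ) : ZMod t), ?_⟩
      left_inv := ?_
      right_inv := ?_ }
  · rw [ZMod.val_cast_of_lt (lt_of_lt_of_le k.2 hs)]
    exact k.2
  · rintro ⟨j, hj⟩
    simp
  · rintro ⟨k, hk⟩
    simp only [Fin.mk.injEq]
    exact ZMod.val_cast_of_lt (lt_of_lt_of_le hk hs)

theorem cT' {s : ℕ} (hs : s ≤ t) (i : ZMod t) :
    Nat.card {j : ZMod t // ¬ (i + j).val < s} = t - s := by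
  have h := cT hs i
  rw [Nat.card_eq_fintype_card] at h ⊢
  rw [Fintype.card_subtype_compl, h, ZMod.card]

theorem cTT {s : ℕ} (hs : s ≤ t) :
    Nat.card {x : ZMod t × ZMod t // (x.1 + x.2).val < s} = t * s := by
  rw [Nat.card_congr (Equiv.subtypeProdEquivSigmaSubtype (fun i j : ZMod t => (i + j).val < s)),
    Nat.card_sigma]
  simp only [cT hs]
  simp

theorem cTT' {s : ℕ} (hs : s ≤ t) :
    Nat.card {x : ZMod t × ZMod t // ¬ (x.1 + x.2).val < s} = t * (t - s) := by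
  rw [Nat.card_congr (Equiv.subtypeProdEquivSigmaSubtype (fun i j : ZMod t => ¬ (i + j).val < s)),
    Nat.card_sigma]
  simp only [cT' hs]
  simp

variable {P : Type} (near two : P → P → Prop) (s : ℕ)

noncomputable def c0 (x y : P × ZMod t) : ℕ :=
  if x = y then 0 else if near x.1 y.1 then 1 else if two x.1 y.1 then
    (if (x.2 + y.2).val < s then 2 else 3) else 0

variable {near two s}

theorem c0_self (x : P × ZMod t) : c0 near two s x x = 0 := by simp [c0]

theorem c0_comm (hn : ∀ f g, near f g ↔ near g f) (ht : ∀ f g, two f g ↔ two g f)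
    (x y : P × ZMod t) : c0 near two s x y = c0 near two s y x := by
  unfold c0
  rw [hn x.1, ht x.1, add_comm x.2]
  simp only [eq_comm (a := x) (b := y)]

theorem c0_le (x y : P × ZMod t) : c0 near two s x y ≤ 3 := by
  unfold c0
  split_ifs <;> omega

theorem c0_one (x y : P × ZMod t) : c0 near two s x y = 1 ↔ near x.1 y.1 ∧ x ≠ y := by
  unfold c0
  split_ifs <;> simp_all

theorem c0_two (hr : ∀ f, near f f) (hx : ∀ f g, two f g → ¬ near f g) (x y : P × ZMod t) :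
    c0 near two s x y = 2 ↔ two x.1 y.1 ∧ (x.2 + y.2).val < s := by
  unfold c0
  split_ifs with h1 h2 h3 h4
  · subst h1
    simp only [OfNat.zero_ne_ofNat, false_iff, not_and]
    intro h
    exact absurd (hr _) (hx _ _ h)
  · simp only [OfNat.one_ne_ofNat, false_iff, not_and]
    intro h
    exact absurd h2 (hx _ _ h)
  · simp [h3, h4]
  · simp [h4]
  · simp [h3]

theorem c0_three (hr : ∀ f, near f f) (hx : ∀ f g, two f g → ¬ near f g) (x y : P × ZMod t) :
    c0 near two s x y = 3 ↔ two x.1 y.1 ∧ ¬ (x.2 + y.2).val < s := by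
  unfold c0
  split_ifs with h1 h2 h3 h4
  · subst h1
    simp only [OfNat.zero_ne_ofNat, false_iff, not_and]
    intro h
    exact absurd (hr _) (hx _ _ h)
  · simp only [OfNat.one_ne_ofNat, false_iff, not_and]
    intro h
    exact absurd h2 (hx _ _ h)
  · simp [h4]
  · simp [h3, h4]
  · simp [h3]

theorem mem_Nb0 (hr : ∀ f, near f f) (v x : P × ZMod t) :
    x ∈ Nb (c0 near two s) v ↔ near v.1 x.1 ∨ two v.1 x.1 := by
  show x = v ∨ c0 near two s v x ≠ 0 ↔ _
  unfold c0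
  split_ifs with h1 h2 h3 h4
  · subst h1
    simp [hr]
  · simp [h2]
  · simp [h3]
  · simp [h3]
  · simp only [ne_eq, not_true_eq_false, or_false, h2, h3, or_self, iff_false]
    exact fun h => h1 h.symm

variable [Finite P]

theorem D0_one (hr : ∀ f, near f f) {n1 : ℕ} (h1 : ∀ v, Nat.card {x : P // near v x} = n1)
    (v : P × ZMod t) : D (c0 near two s) 1 v = t * n1 - 1 := by
  have := Fintype.ofFinite P
  unfold D
  simp only [c0_one]
  have e1 : Nat.card {w : P × ZMod t // near v.1 w.1} = n1 * t := by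
    have : Nat.card {w : P × ZMod t // near v.1 w.1} =
        Nat.card ({x : P // near v.1 x} × ZMod t) :=
      Nat.card_congr
        { toFun := fun w => (⟨w.1.1, w.2⟩, w.1.2)
          invFun := fun w => ⟨(w.1.1, w.2), w.1.2⟩
          left_inv := fun _ => rfl
          right_inv := fun _ => rfl }
    rw [this, Nat.card_prod, h1, Nat.card_zmod]
  have e2 : Nat.card {w : P × ZMod t // near v.1 w.1 ∧ v ≠ w} =
      Nat.card {w : P × ZMod t // near v.1 w.1} - 1 := by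
    simp only [Nat.card_eq_fintype_card, Fintype.card_subtype]
    rw [← Finset.card_erase_of_mem (s := Finset.univ.filter fun w : P × ZMod t => near v.1 w.1)
      (a := v) (by simp [hr])]
    congr 1
    ext w
    simp only [Finset.mem_filter, Finset.mem_univ, true_and, Finset.mem_erase]
    constructor
    · exact fun h => ⟨fun h' => h.2 h'.symm, h.1⟩
    · exact fun h => ⟨h.2, fun h' => h.1 h'.symm⟩
  rw [e2, e1, mul_comm]

theorem D0_two (hr : ∀ f, near f f) (hx : ∀ f g, two f g → ¬ near f g) (hs : s ≤ t) {n2 : ℕ}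
    (h2 : ∀ v, Nat.card {x : P // two v x} = n2) (v : P × ZMod t) :
    D (c0 near two s) 2 v = n2 * s := by
  unfold D
  simp only [c0_two hr hx]
  rw [Nat.card_congr (Equiv.subtypeProdEquivProd (p := fun x : P => two v.1 x)
    (q := fun j : ZMod t => (v.2 + j).val < s)), Nat.card_prod, h2, cT hs]

theorem D0_three (hr : ∀ f, near f f) (hx : ∀ f g, two f g → ¬ near f g) (hs : s ≤ t) {n2 : ℕ}
    (h2 : ∀ v, Nat.card {x : P // two v x} = n2) (v : P × ZMod t) :
    D (c0 near two s) 3 v = n2 * (t - s) := by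
  unfold D
  simp only [c0_three hr hx]
  rw [Nat.card_congr (Equiv.subtypeProdEquivProd (p := fun x : P => two v.1 x)
    (q := fun j : ZMod t => ¬ (v.2 + j).val < s)), Nat.card_prod, h2, cT' hs]

/-- the ball -/
def Bal (near two : P → P → Prop) (v : P) : Set P := {x | near v x ∨ two v x}

omit [Finite P] in
theorem E0_aux (R : P → P → Prop) (Q : ZMod t → ZMod t → Prop) (S : Set P) :
    Nat.card {x : (P × ZMod t) × (P × ZMod t) // x.1.1 ∈ S ∧ x.2.1 ∈ S ∧ R x.1.1 x.2.1 ∧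
      Q x.1.2 x.2.2} =
    Nat.card {x : P × P // x.1 ∈ S ∧ x.2 ∈ S ∧ R x.1 x.2} *
      Nat.card {x : ZMod t × ZMod t // Q x.1 x.2} := by
  rw [← Nat.card_prod]
  refine Nat.card_congr
    { toFun := fun w => (⟨(w.1.1.1, w.1.2.1), w.2.1, w.2.2.1, w.2.2.2.1⟩,
        ⟨(w.1.1.2, w.1.2.2), w.2.2.2.2⟩)
      invFun := fun w => ⟨((w.1.1.1, w.2.1.1), (w.1.1.2, w.2.1.2)), w.1.2.1, w.1.2.2.1,
        w.1.2.2.2, w.2.2⟩
      left_inv := fun _ => rfl
      right_inv := fun _ => rfl }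

omit [Finite P] in
theorem E0_two (hr : ∀ f, near f f) (hx : ∀ f g, two f g → ¬ near f g) (hs : s ≤ t) {Nbb : ℕ}
    (h2 : ∀ v, Nat.card {x : P × P // x.1 ∈ Bal near two v ∧ x.2 ∈ Bal near two v ∧
      two x.1 x.2} = Nbb) (v : P × ZMod t) :
    E (c0 near two s) 2 v = Nbb * (t * s) := by
  unfold E
  simp only [c0_two hr hx, mem_Nb0 hr]
  rw [← h2 v.1, ← cTT hs]
  exact E0_aux (fun a b => two a b) (fun a b => (a + b).val < s) (Bal near two v.1)

omit [Finite P] in
theorem E0_three (hr : ∀ f, near f f) (hx : ∀ f g, two f g → ¬ near f g) (hs : s ≤ t) {Nbb : ℕ}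
    (h2 : ∀ v, Nat.card {x : P × P // x.1 ∈ Bal near two v ∧ x.2 ∈ Bal near two v ∧
      two x.1 x.2} = Nbb) (v : P × ZMod t) :
    E (c0 near two s) 3 v = Nbb * (t * (t - s)) := by
  unfold E
  simp only [c0_three hr hx, mem_Nb0 hr]
  rw [← h2 v.1, ← cTT' hs]
  exact E0_aux (fun a b => two a b) (fun a b => ¬ (a + b).val < s) (Bal near two v.1)

theorem E0_one (hr : ∀ f, near f f) {Nr nB : ℕ}
    (h1 : ∀ v, Nat.card {x : P × P // x.1 ∈ Bal near two v ∧ x.2 ∈ Bal near two v ∧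
      near x.1 x.2} = Nr) (hB : ∀ v, Nat.card {x : P // x ∈ Bal near two v} = nB)
    (v : P × ZMod t) : E (c0 near two s) 1 v + t * nB = t ^ 2 * Nr := by
  have := Fintype.ofFinite P
  unfold E
  simp only [c0_one, mem_Nb0 hr]
  have e1 : Nat.card {x : (P × ZMod t) × (P × ZMod t) // x.1.1 ∈ Bal near two v.1 ∧
      x.2.1 ∈ Bal near two v.1 ∧ near x.1.1 x.2.1 ∧ True} = Nr * (t * t) := by
    rw [E0_aux (fun a b => near a b) (fun _ _ => True) (Bal near two v.1), h1]
    congr 1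
    rw [Nat.card_congr (Equiv.subtypeUnivEquiv fun _ => trivial), Nat.card_prod, Nat.card_zmod]
  have e2 : Nat.card {x : (P × ZMod t) × (P × ZMod t) // x.1.1 ∈ Bal near two v.1 ∧
      x.2.1 ∈ Bal near two v.1 ∧ near x.1.1 x.2.1 ∧ x.1 = x.2} = nB * t := by
    have e5 : nB * t = Nat.card ({x : P // x ∈ Bal near two v.1} × ZMod t) := by
      rw [Nat.card_prod, hB, Nat.card_zmod]
    rw [e5]
    refine Nat.card_congr
      { toFun := fun w => (⟨w.1.1.1, w.2.1⟩, w.1.1.2)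
        invFun := fun w => ⟨((w.1.1, w.2), (w.1.1, w.2)), w.1.2, w.1.2, hr _, rfl⟩
        left_inv := ?_
        right_inv := fun _ => rfl }
    rintro ⟨⟨a, b⟩, h1, h2, h3, h4⟩
    simp only at h4
    subst h4
    rfl
  have e3 : Nat.card {x : (P × ZMod t) × (P × ZMod t) // x.1.1 ∈ Bal near two v.1 ∧
      x.2.1 ∈ Bal near two v.1 ∧ near x.1.1 x.2.1 ∧ True} =
      Nat.card {x : (P × ZMod t) × (P × ZMod t) // x.1.1 ∈ Bal near two v.1 ∧
      x.2.1 ∈ Bal near two v.1 ∧ near x.1.1 x.2.1 ∧ x.1 ≠ x.2} +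
      Nat.card {x : (P × ZMod t) × (P × ZMod t) // x.1.1 ∈ Bal near two v.1 ∧
      x.2.1 ∈ Bal near two v.1 ∧ near x.1.1 x.2.1 ∧ x.1 = x.2} := by
    simp only [Nat.card_eq_fintype_card, Fintype.card_subtype]
    rw [← Finset.card_union_of_disjoint]
    · congr 1
      ext x
      simp only [Finset.mem_filter, Finset.mem_univ, true_and, Finset.mem_union]
      tauto
    · rw [Finset.disjoint_filter]
      intro x _ h h'
      exact h.2.2.2 h'.2.2.2
  rw [e1, e2] at e3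
  have e4 : Nat.card {x : (P × ZMod t) × (P × ZMod t) // (near v.1 x.1.1 ∨ two v.1 x.1.1) ∧
      (near v.1 x.2.1 ∨ two v.1 x.2.1) ∧ near x.1.1 x.2.1 ∧ x.1 ≠ x.2} =
      Nat.card {x : (P × ZMod t) × (P × ZMod t) // x.1.1 ∈ Bal near two v.1 ∧
      x.2.1 ∈ Bal near two v.1 ∧ near x.1.1 x.2.1 ∧ x.1 ≠ x.2} := rfl
  rw [e4]
  have : t ^ 2 * Nr = Nr * (t * t) := by ring
  rw [this, e3]
  ring

end

/-! ### the Cartesian product with `K_{X,X}` -/
section
variable {V : Type} (c : V → V → ℕ) (X : ℕ)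

noncomputable def c1 (x y : V × (Bool × Fin X)) : ℕ :=
  if x.2 = y.2 then c x.1 y.1 else if x.1 = y.1 ∧ x.2.1 ≠ y.2.1 then 3 else 0

variable {c X}

theorem c1_self (h0 : ∀ x, c x x = 0) (x : V × (Bool × Fin X)) : c1 c X x x = 0 := by
  simp [c1, h0]

theorem c1_comm (hc : ∀ x y, c x y = c y x) (x y : V × (Bool × Fin X)) :
    c1 c X x y = c1 c X y x := by
  unfold c1
  rw [hc]
  simp only [eq_comm (a := x.2) (b := y.2), eq_comm (a := x.1) (b := y.1),
    ne_comm (a := x.2.1) (b := y.2.1)]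

theorem c1_le (hc : ∀ x y, c x y ≤ 3) (x y : V × (Bool × Fin X)) : c1 c X x y ≤ 3 := by
  unfold c1
  split_ifs
  · exact hc _ _
  · exact le_rfl
  · omega

theorem cZ (z : Bool × Fin X) : Nat.card {z' : Bool × Fin X // z.1 ≠ z'.1} = X := by
  conv_rhs => rw [← Nat.card_fin X]
  refine Nat.card_congr
    { toFun := fun w => w.1.2
      invFun := fun k => ⟨(!z.1, k), by simp⟩
      left_inv := ?_
      right_inv := fun _ => rfl }
  rintro ⟨⟨a, b⟩, h⟩
  simp only at h
  rw [Subtype.mk.injEq, Prod.mk.injEq]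
  refine ⟨?_, rfl⟩
  cases a <;> cases hz : z.1 <;> simp_all

theorem cZj (z : Bool × Fin X) (j : ℕ) :
    Nat.card {z' : Bool × Fin X // z.1 ≠ z'.1 ∧ j = 3} = if j = 3 then X else 0 := by
  split_ifs with h
  · simp only [h, and_true]
    exact cZ z
  · simp [h]

theorem D1 [Finite V] {j : ℕ} (hj : j ≠ 0) (v : V × (Bool × Fin X)) :
    D (c1 c X) j v = D c j v.1 + if j = 3 then X else 0 := by
  rw [← cZj v.2 j]
  unfold D
  rw [← Nat.card_sum]
  symm
  refine Nat.card_congr (Equiv.ofBijective (fun w : {w : V // c v.1 w = j} ⊕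
    {z' : Bool × Fin X // v.2.1 ≠ z'.1 ∧ j = 3} => (match w with
      | Sum.inl w => ⟨(w.1, v.2), by simp [c1, w.2]⟩
      | Sum.inr w => ⟨(v.1, w.1), by
          have h : v.2 ≠ w.1 := fun h => w.2.1 (congrArg Prod.fst h)
          simp [c1, h, w.2.1, w.2.2]⟩ : {w : V × (Bool × Fin X) // c1 c X v w = j})) ⟨?_, ?_⟩)
  · rintro (⟨a, ha⟩ | ⟨a, ha⟩) (⟨b, hb⟩ | ⟨b, hb⟩) h
    · simp only [Subtype.mk.injEq, Prod.mk.injEq] at h
      rw [Sum.inl.injEq, Subtype.mk.injEq]
      exact h.1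
    · simp only [Subtype.mk.injEq, Prod.mk.injEq] at h
      exact absurd (by rw [← h.2]) hb.1
    · simp only [Subtype.mk.injEq, Prod.mk.injEq] at h
      exact absurd (by rw [h.2]) ha.1
    · simp only [Subtype.mk.injEq, Prod.mk.injEq] at h
      rw [Sum.inr.injEq, Subtype.mk.injEq]
      exact h.2
  · rintro ⟨⟨x, z⟩, h⟩
    by_cases h1 : v.2 = z
    · subst h1
      have h' : c v.1 x = j := by simpa [c1] using h
      exact ⟨Sum.inl ⟨x, h'⟩, rfl⟩
    · have h' : v.1 = x ∧ v.2.1 ≠ z.1 := by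
        by_contra hcon
        apply hj
        rw [← h]
        unfold c1
        rw [if_neg h1, if_neg hcon]
      have h3 : j = 3 := by
        rw [← h]
        simp [c1, h1, h'.1, h'.2]
      obtain ⟨h4, h5⟩ := h'
      subst h4
      exact ⟨Sum.inr ⟨z, h5, h3⟩, rfl⟩

theorem mem_Nb1 (v x : V × (Bool × Fin X)) : x ∈ Nb (c1 c X) v ↔
    (x.2 = v.2 ∧ x.1 ∈ Nb c v.1) ∨ (x.1 = v.1 ∧ v.2.1 ≠ x.2.1) := by
  show x = v ∨ c1 c X v x ≠ 0 ↔ (x.2 = v.2 ∧ (x.1 = v.1 ∨ c v.1 x.1 ≠ 0)) ∨ _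
  obtain ⟨a, z⟩ := v
  obtain ⟨b, w⟩ := x
  unfold c1
  simp only [Prod.mk.injEq]
  by_cases h1 : z = w
  · subst h1
    simp
  · simp only [h1, if_false, Ne.symm (Ne.intro h1), false_and, false_or, and_false]
    by_cases h2 : a = b
    · subst h2
      by_cases h3 : z.1 = w.1
      · simp [h3]
      · simp [h3]
    · simp [h2, Ne.symm (Ne.intro h2)]

theorem E1 [Finite V] (h0 : ∀ x, c x x = 0) {j : ℕ} (hj : j ≠ 0) (v : V × (Bool × Fin X)) :
    E (c1 c X) j v = E c j v.1 + 2 * if j = 3 then X else 0 := by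
  have e0 : E c j v.1 + 2 * (if j = 3 then X else 0) =
      Nat.card ({x : V × V // x.1 ∈ Nb c v.1 ∧ x.2 ∈ Nb c v.1 ∧ c x.1 x.2 = j} ⊕
        ({z' : Bool × Fin X // v.2.1 ≠ z'.1 ∧ j = 3} ⊕
          {z' : Bool × Fin X // v.2.1 ≠ z'.1 ∧ j = 3})) := by
    rw [Nat.card_sum, Nat.card_sum, cZj]
    unfold E
    ring
  rw [e0]
  unfold E
  symm
  refine Nat.card_congr (Equiv.ofBijective (fun w => (match w with
      | Sum.inl w => ⟨((w.1.1, v.2), (w.1.2, v.2)), (mem_Nb1 _ _).2 (Or.inl ⟨rfl, w.2.1⟩),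
          (mem_Nb1 _ _).2 (Or.inl ⟨rfl, w.2.2.1⟩), by simp [c1, w.2.2.2]⟩
      | Sum.inr (Sum.inl w) => ⟨(v, (v.1, w.1)),
          (mem_Nb1 _ _).2 (Or.inl ⟨rfl, Or.inl rfl⟩), (mem_Nb1 _ _).2 (Or.inr ⟨rfl, w.2.1⟩), by
          have h : v.2 ≠ w.1 := fun h => w.2.1 (congrArg Prod.fst h)
          simp [c1, h, w.2.1, w.2.2]⟩
      | Sum.inr (Sum.inr w) => ⟨((v.1, w.1), v),
          (mem_Nb1 _ _).2 (Or.inr ⟨rfl, w.2.1⟩), (mem_Nb1 _ _).2 (Or.inl ⟨rfl, Or.inl rfl⟩), by
          have h : w.1 ≠ v.2 := fun h => w.2.1 (congrArg Prod.fst h).symm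
          simp [c1, h, Ne.symm w.2.1, w.2.2]⟩ :
      {x : (V × (Bool × Fin X)) × (V × (Bool × Fin X)) // x.1 ∈ Nb (c1 c X) v ∧
        x.2 ∈ Nb (c1 c X) v ∧ c1 c X x.1 x.2 = j})) ⟨?_, ?_⟩)
  · rintro (⟨a, ha⟩ | ⟨a, ha⟩ | ⟨a, ha⟩) (⟨b, hb⟩ | ⟨b, hb⟩ | ⟨b, hb⟩) h
    · simp only [Subtype.mk.injEq, Prod.mk.injEq] at h
      rw [Sum.inl.injEq, Subtype.mk.injEq]
      exact Prod.ext h.1.1 h.2.1
    · simp only [Subtype.mk.injEq, Prod.mk.injEq] at h
      exact absurd (by rw [← h.2.2]) hb.1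
    · simp only [Subtype.mk.injEq, Prod.mk.injEq] at h
      exact absurd (by rw [← h.1.2]) hb.1
    · simp only [Subtype.mk.injEq, Prod.mk.injEq] at h
      exact absurd (by rw [h.2.2]) ha.1
    · simp only [Subtype.mk.injEq, Prod.mk.injEq] at h
      rw [Sum.inr.injEq, Sum.inl.injEq, Subtype.mk.injEq]
      exact h.2.2
    · simp only [Subtype.mk.injEq, Prod.mk.injEq] at h
      have h2 := congrArg Prod.snd h.2
      simp only at h2
      exact absurd (by rw [h2]) ha.1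
    · simp only [Subtype.mk.injEq, Prod.mk.injEq] at h
      exact absurd (by rw [h.1.2]) ha.1
    · simp only [Subtype.mk.injEq, Prod.mk.injEq] at h
      have h2 := congrArg Prod.snd h.1
      simp only at h2
      exact absurd (by rw [h2]) ha.1
    · simp only [Subtype.mk.injEq, Prod.mk.injEq] at h
      rw [Sum.inr.injEq, Sum.inr.injEq, Subtype.mk.injEq]
      exact h.1.2
  · rintro ⟨⟨x, y⟩, hx, hy, h⟩
    obtain ⟨a, z⟩ := v
    obtain ⟨x, z1⟩ := x
    obtain ⟨y, z2⟩ := y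
    rw [mem_Nb1] at hx hy
    simp only at hx hy h ⊢
    rcases hx with ⟨hx1, hx2⟩ | ⟨hx1, hx2⟩ <;> rcases hy with ⟨hy1, hy2⟩ | ⟨hy1, hy2⟩
    · subst hx1; subst hy1
      have h' : c x y = j := by simpa [c1] using h
      exact ⟨Sum.inl ⟨(x, y), hx2, hy2, h'⟩, rfl⟩
    · subst hx1; subst hy1
      have h1 : z1 ≠ z2 := fun h => hy2 (by rw [h])
      have h2 : x = y := by
        by_contra hcon
        apply hj
        rw [← h]
        simp [c1, h1, hcon]
      subst h2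
      have h3 : j = 3 := by
        rw [← h]
        simp [c1, h1, hy2]
      exact ⟨Sum.inr (Sum.inl ⟨z2, hy2, h3⟩), rfl⟩
    · subst hx1; subst hy1
      have h1 : z1 ≠ z2 := fun h => hx2 (by rw [h])
      have h2 : x = y := by
        by_contra hcon
        apply hj
        rw [← h]
        simp [c1, h1, hcon]
      subst h2
      have h3 : j = 3 := by
        rw [← h]
        simp [c1, h1, Ne.symm hx2]
      exact ⟨Sum.inr (Sum.inr ⟨z1, hx2, h3⟩), rfl⟩
    · exfalso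
      subst hx1; subst hy1
      have h1 : z1.1 = z2.1 := by
        cases h4 : z1.1 <;> cases h5 : z2.1 <;> cases h6 : z.1 <;> simp_all
      apply hj
      rw [← h]
      unfold c1
      split_ifs with h2 h3
      · exact h0 _
      · exact absurd h1 h3.2
      · rfl

end

end Pool.Agent.R42.Flip
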