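import Mathlib
import Pool.Agent.R42.Flip.Defs

set_option autoImplicit false

/-!
# From edge colourings to colour functions and back
-/

namespace Pool.Agent.R42.Flip

open Classical

section
variable {V : Type}

/-- number of edges of colour `j` with both endpoints in the closed neighbourhood of `v` -/
noncomputable def ee {k : ℕ} (G : SimpleGraph V) (f : Sym2 V → Fin k) (j : Fin k) (v : V) : ℕ :=
  Nat.card {x : Sym2 V // x ∈ G.edgeSet ∧ f x = j ∧ ∀ w ∈ x, w = v ∨ G.Adj v w}

/-- number of edges of colour `j` at `v` -/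
noncomputable def dd {k : ℕ} (G : SimpleGraph V) (f : Sym2 V → Fin k) (j : Fin k) (v : V) : ℕ :=
  Nat.card {w : V // G.Adj v w ∧ f s(v, w) = j}

noncomputable def cOf {k : ℕ} (G : SimpleGraph V) (f : Sym2 V → Fin k) (x y : V) : ℕ :=
  if G.Adj x y then (f s(x, y)).val + 1 else 0

variable {k : ℕ} (G : SimpleGraph V) (f : Sym2 V → Fin k)

theorem cOf_eq (j : Fin k) (x y : V) : cOf G f x y = j.val + 1 ↔ G.Adj x y ∧ f s(x, y) = j := by
  unfold cOf
  split_ifs with h
  · simp [h, Fin.ext_iff]
  · simp [h]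

theorem cOf_ne (x y : V) : cOf G f x y ≠ 0 ↔ G.Adj x y := by
  unfold cOf
  split_ifs with h <;> simp [h]

theorem D_cOf (j : Fin k) (v : V) : D (cOf G f) (j.val + 1) v = dd G f j v := by
  unfold D dd
  simp only [cOf_eq]

theorem E_cOf [Finite V] (j : Fin k) (v : V) :
    E (cOf G f) (j.val + 1) v = 2 * ee G f j v := by
  have := Fintype.ofFinite V
  let H : SimpleGraph V :=
    { Adj := fun x y => G.Adj x y ∧ f s(x, y) = j ∧ (x = v ∨ G.Adj v x) ∧ (y = v ∨ G.Adj v y)
      symm := ⟨fun x y h => ⟨h.1.symm, by rw [Sym2.eq_swap]; exact h.2.1, h.2.2.2, h.2.2.1⟩⟩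
      loopless := ⟨fun x h => G.irrefl h.1⟩ }
  have h1 : ee G f j v = H.edgeFinset.card := by
    unfold ee
    rw [SimpleGraph.edgeFinset_card, ← Nat.card_eq_fintype_card]
    refine Nat.card_congr (Equiv.subtypeEquivRight ?_)
    intro x
    induction x using Sym2.ind with
    | _ a b =>
      simp only [SimpleGraph.mem_edgeSet, Sym2.mem_iff, forall_eq_or_imp, forall_eq]
      exact Iff.rfl
  have h2 : E (cOf G f) (j.val + 1) v = Fintype.card H.Dart := by
    unfold E
    rw [← Nat.card_eq_fintype_card]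
    refine Nat.card_congr
      { toFun := fun x => ⟨x.1, ?_⟩
        invFun := fun d => ⟨d.toProd, ?_⟩
        left_inv := fun _ => rfl
        right_inv := fun _ => rfl }
    · obtain ⟨x, h1, h2, h3⟩ := x
      rw [cOf_eq] at h3
      refine ⟨h3.1, h3.2, ?_, ?_⟩
      · rcases h1 with h | h
        · exact Or.inl h
        · exact Or.inr ((cOf_ne G f _ _).1 h)
      · rcases h2 with h | h
        · exact Or.inl h
        · exact Or.inr ((cOf_ne G f _ _).1 h)
    · obtain ⟨x, h1, h2, h3, h4⟩ := d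
      refine ⟨?_, ?_, (cOf_eq G f _ _ _).2 ⟨h1, h2⟩⟩
      · rcases h3 with h | h
        · exact Or.inl h
        · exact Or.inr ((cOf_ne G f _ _).2 h)
      · rcases h4 with h | h
        · exact Or.inl h
        · exact Or.inr ((cOf_ne G f _ _).2 h)
  rw [h1, h2, SimpleGraph.dart_card_eq_twice_card_edges]

/-- every colour function with values at most `3` comes from an edge colouring -/
theorem exists_cOf (c : V → V → ℕ) (hs : ∀ x y, c x y = c y x) (h0 : ∀ x, c x x = 0)
    (h3 : ∀ x y, c x y ≤ 3) : ∃ (G : SimpleGraph V) (f : Sym2 V → Fin 3), cOf G f = c := by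
  refine ⟨{ Adj := fun x y => c x y ≠ 0
            symm := ⟨fun x y h => by rw [hs]; exact h⟩
            loopless := ⟨fun x h => h (h0 x)⟩ },
    Sym2.lift ⟨fun x y => ⟨c x y - 1, by have := h3 x y; omega⟩, fun x y => by simp [hs x y]⟩, ?_⟩
  funext x y
  unfold cOf
  split_ifs with h
  · simp only [Sym2.lift_mk]
    have : c x y ≠ 0 := h
    omega
  · have : ¬ c x y ≠ 0 := h
    omega

end

end Pool.Agent.R42.Flip
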