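import Pool.Agent.R42.Flip.Defs

set_option autoImplicit false

/-!
# Choice of parameters (StParams)
-/

namespace Pool.Agent.R42.Flip

theorem par_prime (c : ℝ) (hc : c < 5 / 4) : ∃ p : ℕ, (p + 1).Prime ∧ 4 ≤ p ∧
    c * (2 * (p : ℝ) + 1) ^ 2 ≤ 5 * (p : ℝ) ^ 2 + 4 * p := by
  have he : 0 < 5 / 4 - c := by linarith
  obtain ⟨n, hn⟩ := exists_nat_ge (1 / (5 / 4 - c))
  obtain ⟨q, hq, hqp⟩ := Nat.exists_infinite_primes (n + 5)
  refine ⟨q - 1, ?_, by omega, ?_⟩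
  · rw [Nat.sub_add_cancel hqp.one_lt.le]
    exact hqp
  · have h1 : (n : ℝ) ≤ ((q - 1 : ℕ) : ℝ) := by
      exact_mod_cast (show n ≤ q - 1 by omega)
    have h4 : (4 : ℝ) ≤ ((q - 1 : ℕ) : ℝ) := by
      exact_mod_cast (show 4 ≤ q - 1 by omega)
    set p : ℝ := ((q - 1 : ℕ) : ℝ)
    have h2 : 1 ≤ (5 / 4 - c) * p := by
      have h3 : 1 / (5 / 4 - c) ≤ p := hn.trans h1
      rw [div_le_iff₀ he] at h3
      linarith
    have h5 : p ≤ (5 / 4 - c) * p * p := by nlinarith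
    have h6 : (5 / 4 - c) * (2 * p + 1) ^ 2 = 4 * ((5 / 4 - c) * p * p) + 4 * ((5 / 4 - c) * p)
        + (5 / 4 - c) := by ring
    have h7 : c * (2 * p + 1) ^ 2 = 5 / 4 * (2 * p + 1) ^ 2 - (5 / 4 - c) * (2 * p + 1) ^ 2 := by
      ring
    rw [h7, h6]
    nlinarith

theorem stParams : StParams := by
  intro c hc
  obtain ⟨p, hp, hp4, hcp⟩ := par_prime c hc
  refine ⟨p, hp, fun N => ?_⟩
  obtain ⟨A, hA⟩ : ∃ A, A = 2 * p ^ 3 + p ^ 2 := ⟨_, rfl⟩
  obtain ⟨C, hC⟩ : ∃ C, C = 5 * p ^ 2 + 4 * p + 1 := ⟨_, rfl⟩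
  obtain ⟨B, hB⟩ : ∃ B, B = 2 * p ^ 2 + 2 * p + 1 := ⟨_, rfl⟩
  obtain ⟨t, ht⟩ : ∃ t, t = N + (B + 2 + 2 * A) := ⟨_, rfl⟩
  have hNb : 4 * p ^ 3 + 2 * p ^ 2 = 2 * A := by rw [hA]; ring
  have hNr : 2 * p ^ 3 + 6 * p ^ 2 + 4 * p + 1 = A + C := by rw [hA, hC]; ring
  have hp2 : 2 * p + 1 ≤ p ^ 2 := by nlinarith
  have hCA : C ≤ A := by
    rw [hA, hC]
    have h1 : p ^ 3 = p * p ^ 2 := by ring
    rw [h1]
    nlinarith
  have hC1 : 1 ≤ C := by omega
  have hA1 : 1 ≤ A := by omega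
  have hpA : 2 * p ^ 2 ≤ A := by
    rw [hA]
    have h1 : p ^ 3 = p * p ^ 2 := by ring
    rw [h1]
    nlinarith
  have htC : t ≤ t * C := Nat.le_mul_of_pos_right t hC1
  obtain ⟨u, hu⟩ : ∃ u, u + (B + 1) = t * (A + C) := by
    refine ⟨t * (A + C) - (B + 1), Nat.sub_add_cancel ?_⟩
    rw [Nat.mul_add]
    omega
  obtain ⟨s, hs⟩ : ∃ s, s = u / (2 * A) := ⟨_, rfl⟩
  have hs1 : 2 * A * s ≤ u := by rw [hs]; exact Nat.mul_div_le _ _
  have hs2 : u < 2 * A * s + 2 * A := by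
    rw [hs]
    have := Nat.lt_mul_div_succ u (show 0 < 2 * A by omega)
    rw [Nat.mul_add] at this
    omega
  rw [Nat.mul_add] at hu
  -- `s ≤ t`
  have hst : s ≤ t := by
    by_contra hcon
    have h1 : 2 * A * (t + 1) ≤ 2 * A * s := Nat.mul_le_mul_left _ (by omega)
    have h2 : t * C ≤ t * A := Nat.mul_le_mul_left _ hCA
    have h3 : 2 * A * (t + 1) = t * A + t * A + 2 * A := by ring
    omega
  -- `t < 2 s`
  have hts : t < 2 * s := by
    by_contra hcon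
    have h1 : A * (2 * s) ≤ A * t := Nat.mul_le_mul_left _ (by omega)
    have h2 : A * (2 * s) = 2 * A * s := by ring
    have h3 : A * t = t * A := by ring
    omega
  obtain ⟨e, he⟩ := Nat.exists_eq_add_of_le hst
  obtain ⟨d, hd⟩ := Nat.exists_eq_add_of_lt hts
  have hAtd : A * t * (d + 1) = (A * t * (d + 1) - 1) + 1 := by
    have : 0 < A * t * (d + 1) := by
      have : 0 < t := by omega
      positivity
    omega
  obtain ⟨X, hX⟩ : ∃ X, X = A * t * (d + 1) - 1 := ⟨_, rfl⟩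
  rw [← hX] at hAtd
  have hsed : s = e + (d + 1) := by omega
  have hX2 : 2 * p ^ 2 * (d + 1) + 1 < X := by
    have h1 : A * (d + 1) * 4 ≤ A * (d + 1) * t := Nat.mul_le_mul_left _ (by omega)
    have h2 : A * (d + 1) * t = A * t * (d + 1) := by ring
    have h3 : 2 * p ^ 2 * (d + 1) ≤ A * (d + 1) := Nat.mul_le_mul_right _ hpA
    have h4 : 1 ≤ A * (d + 1) := Nat.mul_pos (by omega) (by omega)
    omega
  refine ⟨t, s, X, by omega, ⟨hst, by omega, ?_, ?_, ?_, ?_⟩, ?_⟩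
  · have h1 : t * (2 * p + 1) ≤ t * p ^ 2 := Nat.mul_le_mul_left _ hp2
    have h2 : p ^ 2 * t < p ^ 2 * (2 * s) :=
      Nat.mul_lt_mul_of_pos_left hts (by positivity)
    have h3 : p ^ 2 * (2 * s) = 2 * p ^ 2 * s := by ring
    have h4 : t * p ^ 2 = p ^ 2 * t := by ring
    omega
  · have h1 : t - s = e := by omega
    rw [h1]
    have h2 : 2 * p ^ 2 * s = 2 * p ^ 2 * e + 2 * p ^ 2 * (d + 1) := by rw [hsed]; ring
    omega
  · have h1 : t - s = e := by omega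
    rw [h1, hNb]
    have h2 : 2 * A * t * s = 2 * A * t * e + 2 * (A * t * (d + 1)) := by rw [hsed]; ring
    omega
  · rw [hNb, hNr, ← hB]
    have h1 : t * (2 * A * s + B + 1) ≤ t * (t * A + t * C) := Nat.mul_le_mul_left _ (by omega)
    have h2 : t * (2 * A * s + B + 1) = 2 * A * t * s + t * B + t := by ring
    have h3 : t * (t * A + t * C) = t ^ 2 * (A + C) := by ring
    omega
  · have h0 : t - s = e := by omega
    rw [h0]
    -- everything over the reals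
    have hA' : (A : ℝ) = 2 * (p : ℝ) ^ 3 + (p : ℝ) ^ 2 := by rw [hA]; push_cast; ring
    have hC' : (C : ℝ) = 5 * (p : ℝ) ^ 2 + 4 * p + 1 := by rw [hC]; push_cast; ring
    have hXr : (X : ℝ) + 1 = A * t * (d + 1) := by exact_mod_cast hAtd.symm
    have hdr : ((d : ℝ) + 1) = 2 * s - t := by
      have h1 : 2 * (s : ℝ) = t + d + 1 := by exact_mod_cast hd
      linarith
    have hur : (u : ℝ) + (B + 1) = t * A + t * C := by exact_mod_cast hu
    have hsr : (u : ℝ) < 2 * A * s + 2 * A := by exact_mod_cast hs2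
    have htr : (B : ℝ) + 2 + 2 * A ≤ t := by
      exact_mod_cast (show B + 2 + 2 * A ≤ t by omega)
    have h1 : (A : ℝ) * (d + 1) ≥ t * C - (B + 1 + 2 * A) := by
      rw [hdr]
      nlinarith
    have ht0 : (0 : ℝ) ≤ t := Nat.cast_nonneg _
    have ht1 : (1 : ℝ) ≤ t := by exact_mod_cast (show 1 ≤ t by omega)
    have h2 : (X : ℝ) + 1 ≥ t * (t * C - (B + 1 + 2 * A)) := by
      rw [hXr]
      have := mul_le_mul_of_nonneg_left h1 ht0
      calc (t : ℝ) * (t * C - (B + 1 + 2 * A)) ≤ t * (A * (d + 1)) := this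
        _ = A * t * (d + 1) := by ring
    have h3 : (X : ℝ) ≥ t ^ 2 * (C - 1) := by
      have h4 : (t : ℝ) * (B + 1 + 2 * A) + 1 ≤ t * t := by nlinarith
      nlinarith
    -- the left-hand side
    have ha : ((t * (2 * p + 1) - 1 : ℕ) : ℝ) ≤ t * (2 * p + 1) := by
      have : t * (2 * p + 1) - 1 ≤ t * (2 * p + 1) := Nat.sub_le _ _
      exact_mod_cast this
    have ha0 : (0 : ℝ) ≤ ((t * (2 * p + 1) - 1 : ℕ) : ℝ) := Nat.cast_nonneg _
    set a : ℝ := ((t * (2 * p + 1) - 1 : ℕ) : ℝ)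
    have h5 : c * a ^ 2 ≤ (t : ℝ) ^ 2 * (C - 1) := by
      rcases le_or_gt c 0 with hc0 | hc0
      · have h6 : c * a ^ 2 ≤ 0 := mul_nonpos_of_nonpos_of_nonneg hc0 (by positivity)
        have h7 : (0 : ℝ) ≤ (t : ℝ) ^ 2 * (C - 1) := by
          have : (1 : ℝ) ≤ C := by exact_mod_cast hC1
          have : (0 : ℝ) ≤ (C : ℝ) - 1 := by linarith
          positivity
        linarith
      · have h6 : a ^ 2 ≤ (t * (2 * p + 1)) ^ 2 := pow_le_pow_left₀ ha0 ha 2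
        have h7 : c * a ^ 2 ≤ c * (t * (2 * p + 1)) ^ 2 := mul_le_mul_of_nonneg_left h6 hc0.le
        have h8 : c * (t * (2 * (p : ℝ) + 1)) ^ 2 = t ^ 2 * (c * (2 * (p : ℝ) + 1) ^ 2) := by ring
        have h9 : (C : ℝ) - 1 = 5 * (p : ℝ) ^ 2 + 4 * p := by rw [hC']; ring
        rw [h9]
        rw [h8] at h7
        exact h7.trans (mul_le_mul_of_nonneg_left hcp (by positivity))
    have h10 : (0 : ℝ) ≤ 2 * (p : ℝ) ^ 2 * e := by positivity
    push_cast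
    linarith

end Pool.Agent.R42.Flip
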