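import Pool.Agent.R42.Flip.Defs

/-!
# Upper bound for 3-flip sequences (MP_56a9b7_co)
Double counting and Goodman's inequality.
-/

set_option autoImplicit false

namespace Pool.Agent.R42.Flip

open Finset

namespace Up

variable {V : Type} [Fintype V]

/-- Goodman's inequality with 0/1 weights -/
theorem goodman (u : V → ℤ) (b : V → V → ℤ) (hu : ∀ x, 0 ≤ u x)
    (hb0 : ∀ x y, 0 ≤ b x y) (hb1 : ∀ x y, b x y ≤ 1) (hs : ∀ x y, b x y = b y x) (m : ℤ)
    (hm : ∑ x, u x = m) :
    (∑ x, ∑ y, u x * u y * b x y) * (2 * (∑ x, ∑ y, u x * u y * b x y) - m ^ 2) ≤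
      m * ∑ x, ∑ y, ∑ z, u x * u y * u z * b x y * b y z * b x z := by
  set B := ∑ x, ∑ y, u x * u y * b x y with hB
  set d : V → ℤ := fun x => ∑ z, u z * b x z with hd
  have hm0 : 0 ≤ m := by rw [← hm]; exact sum_nonneg fun x _ => hu x
  have hBd : B = ∑ x, u x * d x := by
    rw [hB]
    refine sum_congr rfl fun x _ => ?_
    rw [hd, mul_sum]
    refine sum_congr rfl fun y _ => ?_
    ring
  have hCS : B ^ 2 ≤ m * ∑ x, u x * d x ^ 2 := by
    have h1 : 0 ≤ ∑ x, ∑ y, u x * u y * (d x - d y) ^ 2 :=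
      sum_nonneg fun x _ => sum_nonneg fun y _ =>
        mul_nonneg (mul_nonneg (hu x) (hu y)) (sq_nonneg _)
    have h2 : ∑ x, ∑ y, u x * u y * (d x - d y) ^ 2 =
        2 * (m * ∑ x, u x * d x ^ 2) - 2 * B ^ 2 := by
      have e1 : ∑ x, ∑ y, u x * u y * (d x - d y) ^ 2 =
          (∑ x, ∑ y, (u x * d x ^ 2) * u y) + (∑ x, ∑ y, u x * (u y * d y ^ 2)) -
          2 * ∑ x, ∑ y, (u x * d x) * (u y * d y) := by
        simp only [mul_sum, ← sum_add_distrib, ← sum_sub_distrib]
        refine sum_congr rfl fun x _ => sum_congr rfl fun y _ => ?_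
        ring
      rw [e1, ← sum_mul_sum, ← sum_mul_sum, ← sum_mul_sum, hm, ← hBd]
      ring
    rw [h2] at h1
    linarith
  have hT : 2 * (∑ x, u x * d x ^ 2) - m * B ≤
      ∑ x, ∑ y, ∑ z, u x * u y * u z * b x y * b y z * b x z := by
    have h1 : ∀ x y, u x * u y * b x y * (d x + d y - m) ≤
        ∑ z, u x * u y * u z * b x y * b y z * b x z := by
      intro x y
      have h2 : d x + d y - m ≤ ∑ z, u z * (b y z * b x z) := by
        rw [hd]
        simp only
        rw [← hm, ← sum_add_distrib, ← sum_sub_distrib]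
        refine sum_le_sum fun z _ => ?_
        have h3 : 0 ≤ (1 - b y z) * (1 - b x z) :=
          mul_nonneg (by linarith [hb1 y z]) (by linarith [hb1 x z])
        nlinarith [mul_nonneg (hu z) h3]
      have h4 : 0 ≤ u x * u y * b x y := mul_nonneg (mul_nonneg (hu x) (hu y)) (hb0 x y)
      refine (mul_le_mul_of_nonneg_left h2 h4).trans (le_of_eq ?_)
      rw [mul_sum]
      refine sum_congr rfl fun z _ => ?_
      ring
    refine le_trans (le_of_eq ?_) (sum_le_sum fun x _ => sum_le_sum fun y _ => h1 x y)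
    have e1 : ∑ x, ∑ y, u x * u y * b x y * (d x + d y - m) =
        (∑ x, ∑ y, u x * d x * (u y * b x y)) + (∑ x, ∑ y, u y * d y * (u x * b x y)) -
        m * B := by
      rw [hB]
      simp only [mul_sum, ← sum_add_distrib, ← sum_sub_distrib]
      refine sum_congr rfl fun x _ => sum_congr rfl fun y _ => ?_
      ring
    have e2 : ∑ x, ∑ y, u x * d x * (u y * b x y) = ∑ x, u x * d x ^ 2 := by
      refine sum_congr rfl fun x _ => ?_
      rw [← mul_sum, sq]
      rw [hd]
      ring
    have e3 : ∑ x, ∑ y, u y * d y * (u x * b x y) = ∑ x, u x * d x ^ 2 := by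
      rw [sum_comm, ← e2]
      refine sum_congr rfl fun x _ => sum_congr rfl fun y _ => ?_
      rw [hs y x]
    rw [e1, e2, e3]
    ring
  have h5 := mul_le_mul_of_nonneg_left hT hm0
  nlinarith

/-- indicator of colour `j` -/
noncomputable def e (c : V → V → ℕ) (j : ℕ) (x y : V) : ℤ := if c x y = j then 1 else 0

theorem D_eq (c : V → V → ℕ) (j : ℕ) (v : V) : (D c j v : ℤ) = ∑ w, e c j v w := by
  classical
  unfold D e
  rw [Nat.card_eq_fintype_card, Fintype.card_subtype, natCast_card_filter]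

theorem E_eq (c : V → V → ℕ) (j : ℕ) (v : V) (g : V → ℤ)
    (hg : ∀ x, g x = (open Classical in if x ∈ Nb c v then (1 : ℤ) else 0)) :
    (E c j v : ℤ) = ∑ x, ∑ y, g x * g y * e c j x y := by
  classical
  unfold E
  rw [Nat.card_eq_fintype_card, Fintype.card_subtype, natCast_card_filter,
    Fintype.sum_prod_type]
  refine sum_congr rfl fun x _ => sum_congr rfl fun y _ => ?_
  rw [hg, hg, e]
  by_cases h1 : x ∈ Nb c v <;> by_cases h2 : y ∈ Nb c v <;> by_cases h3 : c x y = j <;>
    simp [h1, h2, h3]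

/-- triple sums -/
def tr (p q s : V → V → ℤ) : ℤ := ∑ v, ∑ x, ∑ y, p v x * q v y * s x y

theorem tr_swap (p q s : V → V → ℤ) (hs : ∀ x y, s x y = s y x) : tr p q s = tr q p s := by
  unfold tr
  refine sum_congr rfl fun v _ => ?_
  rw [sum_comm]
  refine sum_congr rfl fun x _ => sum_congr rfl fun y _ => ?_
  rw [hs]; ring

theorem tr_rot (p q s : V → V → ℤ) (hp : ∀ x y, p x y = p y x) : tr p q s = tr p s q := by
  unfold tr
  rw [sum_comm]
  refine sum_congr rfl fun x _ => sum_congr rfl fun v _ => sum_congr rfl fun y _ => ?_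
  rw [hp]; ring

end Up

open Up

theorem stUpper : StUpper := by
  intro V _ _ c hsym h0 h3 a1 a2 a3 hD1 hD2 hD3 ha1 ha12 hE
  classical
  set r : V → V → ℤ := e c 1 with hr
  set b : V → V → ℤ := fun x y => e c 2 x y + e c 3 x y with hb
  set w : V → V → ℤ := fun x y => 2 * r x y - b x y with hw
  set g : V → V → ℤ := fun x y => r x y + b x y with hg
  have esym : ∀ j x y, e c j x y = e c j y x := by
    intro j x y; unfold e; rw [hsym]
  have rs : ∀ x y, r x y = r y x := esym 1
  have bs : ∀ x y, b x y = b y x := by intro x y; rw [hb]; simp only; rw [esym 2, esym 3]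
  have ws : ∀ x y, w x y = w y x := by intro x y; rw [hw]; simp only; rw [rs, bs]
  have r0 : ∀ x y, 0 ≤ r x y := by intro x y; rw [hr]; unfold e; split_ifs <;> norm_num
  have r1 : ∀ x y, r x y ≤ 1 := by intro x y; rw [hr]; unfold e; split_ifs <;> norm_num
  have rsq : ∀ x y, r x y * r x y = r x y := by
    intro x y; rw [hr]; unfold e; split_ifs <;> norm_num
  have hcas : ∀ x y, (r x y = 0 ∧ b x y = 0 ∧ c x y = 0) ∨ (r x y = 1 ∧ b x y = 0 ∧ c x y ≠ 0) ∨
      (r x y = 0 ∧ b x y = 1 ∧ c x y ≠ 0) := by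
    intro x y
    have h4 := h3 x y
    rw [hr, hb]
    unfold e
    have h5 : c x y = 0 ∨ c x y = 1 ∨ c x y = 2 ∨ c x y = 3 := by omega
    rcases h5 with h5 | h5 | h5 | h5 <;> simp [h5]
  have b0 : ∀ x y, 0 ≤ b x y := by
    intro x y; rcases hcas x y with h | h | h <;> rw [h.2.1] <;> norm_num
  have b1 : ∀ x y, b x y ≤ 1 := by
    intro x y; rcases hcas x y with h | h | h <;> rw [h.2.1] <;> norm_num
  have rb : ∀ x y, r x y + b x y ≤ 1 - (if x = y then 1 else 0) := by
    intro x y
    by_cases hxy : x = y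
    · subst hxy
      rcases hcas x x with h | h | h
      · rw [h.1, h.2.1]; simp
      · exact absurd (h0 x) h.2.2
      · exact absurd (h0 x) h.2.2
    · rw [if_neg hxy]
      rcases hcas x y with h | h | h <;> rw [h.1, h.2.1] <;> norm_num
  have w00 : ∀ x, w x x = 0 := by
    intro x
    rw [hw]
    rcases hcas x x with h | h | h
    · simp only; rw [h.1, h.2.1]; norm_num
    · exact absurd (h0 x) h.2.2
    · exact absurd (h0 x) h.2.2
  have gw : ∀ x y, g x y * w x y = w x y := by
    intro x y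
    rw [hg, hw]
    simp only
    rcases hcas x y with h | h | h <;> rw [h.1, h.2.1] <;> norm_num
  set m : ℤ := (a1 : ℤ) with hm
  have hm0 : 0 < m := by rw [hm]; exact_mod_cast ha1
  have sr : ∀ v, ∑ x, r v x = m := by
    intro v; rw [hr, ← D_eq, hD1]
  have sb : ∀ v, ∑ x, b v x = (a2 : ℤ) + a3 := by
    intro v; rw [hb, sum_add_distrib, ← D_eq, ← D_eq, hD2, hD3]
  have sw : ∀ v, ∑ x, w v x = 2 * m - a2 - a3 := by
    intro v; rw [hw, sum_sub_distrib, ← mul_sum, sr, sb]; ring
  -- the weights of the closed neighbourhood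
  set nb : V → V → ℤ := fun v x => (if x = v then 1 else 0) + g v x with hnb
  have hnb' : ∀ v x, nb v x = if x ∈ Nb c v then (1 : ℤ) else 0 := by
    intro v x
    rw [hnb, hg]
    simp only
    by_cases hxv : x = v
    · subst hxv
      have h5 : x ∈ Nb c x := Or.inl rfl
      rw [if_pos rfl, if_pos h5]
      rcases hcas x x with h | h | h
      · rw [h.1, h.2.1]; norm_num
      · exact absurd (h0 x) h.2.2
      · exact absurd (h0 x) h.2.2
    · rw [if_neg hxv]
      rcases hcas v x with h | h | h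
      · have h5 : x ∉ Nb c v := by
          rintro (h6 | h6)
          · exact hxv h6
          · exact h6 h.2.2
        rw [if_neg h5, h.1, h.2.1]; norm_num
      · have h5 : x ∈ Nb c v := Or.inr h.2.2
        rw [if_pos h5, h.1, h.2.1]; norm_num
      · have h5 : x ∈ Nb c v := Or.inr h.2.2
        rw [if_pos h5, h.1, h.2.1]; norm_num
  have hW : ∀ v, 0 < ∑ x, ∑ y, nb v x * nb v y * w x y := by
    intro v
    have h5 : ∑ x, ∑ y, nb v x * nb v y * w x y =
        2 * (E c 1 v : ℤ) - E c 2 v - E c 3 v := by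
      rw [E_eq c 1 v (nb v) (hnb' v), E_eq c 2 v (nb v) (hnb' v), E_eq c 3 v (nb v) (hnb' v)]
      simp only [mul_sum, ← sum_sub_distrib]
      refine sum_congr rfl fun x _ => sum_congr rfl fun y _ => ?_
      rw [hw, hb, hr]
      ring
    rw [h5]
    have h6 := hE v
    have h7 : (E c 3 v : ℤ) < E c 2 v := by exact_mod_cast h6.1
    have h8 : (E c 2 v : ℤ) < E c 1 v := by exact_mod_cast h6.2
    linarith
  have hWexp : ∀ v, ∑ x, ∑ y, nb v x * nb v y * w x y =
      2 * (2 * m - a2 - a3) + ∑ x, ∑ y, g v x * g v y * w x y := by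
    intro v
    have h5 : ∀ x y, nb v x * nb v y * w x y =
        (if x = v then (if y = v then w x y else 0) else 0) +
        (if x = v then g v y * w x y else 0) + (if y = v then g v x * w x y else 0) +
        g v x * g v y * w x y := by
      intro x y
      rw [hnb]
      simp only
      by_cases hx : x = v <;> by_cases hy : y = v <;> simp [hx, hy] <;> ring
    simp_rw [h5, sum_add_distrib]
    have e1 : ∑ x, ∑ y, (if x = v then (if y = v then w x y else 0) else 0) = 0 := by
      refine sum_eq_zero fun x _ => sum_eq_zero fun y _ => ?_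
      by_cases hx : x = v
      · by_cases hy : y = v
        · rw [if_pos hx, if_pos hy, hx, hy, w00]
        · rw [if_pos hx, if_neg hy]
      · rw [if_neg hx]
    have e2 : ∑ x, ∑ y, (if x = v then g v y * w x y else 0) = 2 * m - a2 - a3 := by
      rw [sum_comm]
      simp only [sum_ite_eq', mem_univ, if_true]
      simp_rw [gw]
      exact sw v
    have e3 : ∑ x, ∑ y, (if y = v then g v x * w x y else 0) = 2 * m - a2 - a3 := by
      simp only [sum_ite_eq', mem_univ, if_true]
      have : ∀ x, g v x * w x v = w v x := by intro x; rw [ws x v, gw]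
      simp_rw [this]
      exact sw v
    rw [e1, e2, e3]
    ring
  set n : ℤ := (Fintype.card V : ℤ) with hn
  have hn0 : 0 < n := by rw [hn]; exact_mod_cast Fintype.card_pos
  have hS : 0 < 2 * n * (2 * m - a2 - a3) + (2 * tr r r r + 3 * tr r r b - tr b b b) := by
    have h5 : 0 < ∑ v, ∑ x, ∑ y, nb v x * nb v y * w x y :=
      sum_pos (fun v _ => hW v) univ_nonempty
    have h6 : ∑ v, ∑ x, ∑ y, nb v x * nb v y * w x y =
        2 * n * (2 * m - a2 - a3) + ∑ v, ∑ x, ∑ y, g v x * g v y * w x y := by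
      simp_rw [hWexp, sum_add_distrib, sum_const, card_univ, nsmul_eq_mul]
      rw [hn]; ring
    have h7 : ∑ v, ∑ x, ∑ y, g v x * g v y * w x y =
        2 * tr r r r - tr r r b + 2 * tr r b r - tr r b b + 2 * tr b r r - tr b r b +
          2 * tr b b r - tr b b b := by
      unfold tr
      simp only [mul_sum, ← sum_add_distrib, ← sum_sub_distrib]
      refine sum_congr rfl fun v _ => sum_congr rfl fun x _ => sum_congr rfl fun y _ => ?_
      rw [hg, hw]
      ring
    have h8 : tr r b r = tr r r b := tr_rot r b r rs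
    have h9 : tr b r r = tr r r b := by rw [tr_swap b r r rs, h8]
    have h10 : tr b r b = tr r b b := tr_swap b r b bs
    have h11 : tr b b r = tr r b b := by rw [tr_rot b b r bs, h10]
    rw [h6, h7, h8, h9, h10, h11] at h5
    linarith
  -- the local quantities
  set R' : V → ℤ := fun v => ∑ x, ∑ y, r v x * r v y * r x y with hR'
  set B' : V → ℤ := fun v => ∑ x, ∑ y, r v x * r v y * b x y with hB'
  have hRB : ∀ v, R' v + B' v ≤ m ^ 2 - m := by
    intro v
    have h5 : R' v + B' v = ∑ x, ∑ y, r v x * r v y * (r x y + b x y) := by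
      rw [hR', hB']
      simp only [← sum_add_distrib]
      refine sum_congr rfl fun x _ => sum_congr rfl fun y _ => ?_
      ring
    rw [h5]
    have h6 : ∑ x, ∑ y, r v x * r v y * (r x y + b x y) ≤
        ∑ x, ∑ y, r v x * r v y * (1 - (if x = y then 1 else 0)) :=
      sum_le_sum fun x _ => sum_le_sum fun y _ =>
        mul_le_mul_of_nonneg_left (rb x y) (mul_nonneg (r0 _ _) (r0 _ _))
    refine h6.trans (le_of_eq ?_)
    have h7 : ∑ x, ∑ y, r v x * r v y * (1 - (if x = y then 1 else 0)) =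
        ∑ x, ∑ y, r v x * r v y - ∑ x, ∑ y, (if x = y then r v x * r v y else 0) := by
      simp only [← sum_sub_distrib]
      refine sum_congr rfl fun x _ => sum_congr rfl fun y _ => ?_
      split_ifs <;> ring
    rw [h7, ← sum_mul_sum, sr]
    simp only [sum_ite_eq, mem_univ, if_true]
    simp_rw [rsq]
    rw [sr]; ring
  have hT : ∑ v, B' v * (2 * B' v - m ^ 2) ≤ m ^ 2 * tr b b b := by
    have h5 : ∑ v, B' v * (2 * B' v - m ^ 2) ≤ ∑ v, m * ∑ x, ∑ y, ∑ z,
        r v x * r v y * r v z * b x y * b y z * b x z :=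
      sum_le_sum fun v _ => goodman (r v) b (r0 v) b0 b1 bs m (sr v)
    refine h5.trans ?_
    have h6 : ∑ v, ∑ x, ∑ y, ∑ z, r v x * r v y * r v z * b x y * b y z * b x z =
        ∑ x, ∑ y, ∑ z, (∑ v, r v x * r v y * r v z) * (b x y * b y z * b x z) := by
      rw [sum_comm]
      refine sum_congr rfl fun x _ => ?_
      rw [sum_comm]
      refine sum_congr rfl fun y _ => ?_
      rw [sum_comm]
      refine sum_congr rfl fun z _ => ?_
      rw [sum_mul]
      refine sum_congr rfl fun v _ => ?_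
      ring
    rw [← mul_sum, h6, sq, mul_assoc]
    refine mul_le_mul_of_nonneg_left ?_ hm0.le
    have h7 : m * tr b b b = ∑ x, ∑ y, ∑ z, m * (b x y * b y z * b x z) := by
      unfold tr
      simp only [mul_sum]
      refine sum_congr rfl fun x _ => sum_congr rfl fun y _ => sum_congr rfl fun z _ => ?_
      ring
    rw [h7]
    refine sum_le_sum fun x _ => sum_le_sum fun y _ => sum_le_sum fun z _ => ?_
    refine mul_le_mul_of_nonneg_right ?_ (mul_nonneg (mul_nonneg (b0 _ _) (b0 _ _)) (b0 _ _))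
    calc ∑ v, r v x * r v y * r v z ≤ ∑ v, r x v := by
          refine sum_le_sum fun v _ => ?_
          have h8 : r v y * r v z ≤ 1 := mul_le_one₀ (r1 _ _) (r0 _ _) (r1 _ _)
          have h9 := mul_le_mul_of_nonneg_left h8 (r0 v x)
          rw [rs x v]
          linarith
      _ = m := sr x
  have hfin : 2 * (2 * tr r r r + 3 * tr r r b - tr b b b) ≤ n * (5 * m ^ 2 - 4 * m) := by
    have hRR : tr r r r = ∑ v, R' v := rfl
    have hRRB : tr r r b = ∑ v, B' v := rfl
    have h5 : m ^ 2 * (2 * (2 * tr r r r + 3 * tr r r b - tr b b b)) ≤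
        m ^ 2 * (n * (5 * m ^ 2 - 4 * m)) := by
      have h6 : m ^ 2 * (2 * (2 * tr r r r + 3 * tr r r b - tr b b b)) ≤
          ∑ v, (4 * m ^ 2 * R' v + 6 * m ^ 2 * B' v - 2 * (B' v * (2 * B' v - m ^ 2))) := by
        rw [sum_sub_distrib, sum_add_distrib, ← mul_sum, ← mul_sum, ← mul_sum, ← hRR, ← hRRB]
        nlinarith [hT]
      refine h6.trans ?_
      have h7 : ∀ v, 4 * m ^ 2 * R' v + 6 * m ^ 2 * B' v - 2 * (B' v * (2 * B' v - m ^ 2)) ≤
          m ^ 2 * (5 * m ^ 2 - 4 * m) := by
        intro v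
        have h8 := hRB v
        have h9 : 0 ≤ m ^ 2 := sq_nonneg _
        have h10 := mul_le_mul_of_nonneg_left h8 h9
        nlinarith [sq_nonneg (2 * B' v - m ^ 2)]
      refine (sum_le_sum fun v _ => h7 v).trans (le_of_eq ?_)
      rw [sum_const, card_univ, nsmul_eq_mul]
      rw [hn]; ring
    have h6 : 0 < m ^ 2 := by positivity
    exact le_of_mul_le_mul_left h5 h6
  have hlast : 0 < n * (4 * (2 * m - a2 - a3) + (5 * m ^ 2 - 4 * m)) := by
    linarith
  have h5 : 0 < 4 * (2 * m - a2 - a3) + (5 * m ^ 2 - 4 * m) := by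
    by_contra h6
    push Not at h6
    have := mul_nonpos_of_nonneg_of_nonpos hn0.le h6
    linarith
  have h6 : m + 1 ≤ (a2 : ℤ) := by rw [hm]; exact_mod_cast ha12
  have h7 : 4 * (a3 : ℤ) < 5 * (a1 : ℤ) ^ 2 := by rw [← hm]; linarith
  exact_mod_cast h7

end Pool.Agent.R42.Flip
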